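import Pool.Agent.Q193.NG.Dich
import Pool.Agent.Q193.NE.Cont

/-!
Contents of the sets of the points which are not quiet (helper193).
-/

set_option autoImplicit false

open MeasureTheory Set Metric Filter Topology
open scoped ContDiff ENNReal

namespace Pool.Agent.Q193.NG

open H459R3.NS W221.NS Pool.Agent.Y7 Pool.Agent.Y8 Pool.Agent.Y458.NS Pool.Agent.TH305.LG
open Pool.Agent.Y8.WS Pool.Agent.Y7.Cov1 Pool.Agent.Q193.NE
open Pool.Agent.Q193.NS (rr_mono rr_le1 abs_le_B rr_add' Bx Bx_meas Ub Ub_meas Mb cyl cyl_eq clc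
  idx count cb_sub Mb_sum D_nonneg)

/-- The cost at a level. -/
noncomputable def HHq (η ηs : ℝ) (G : Set ℝ) (u : ℝ → V → V) (k₁ m : ℕ) : ℝ≥0∞ :=
  ENNReal.ofReal 32768 * (81 * Mb ηs G u m univ)
    + ∑ q ∈ Finset.HasAntidiagonal.antidiagonal (m + 9), FK η G u k₁ q

/-- The cover at one level. -/
theorem levelq {ε₀ : ℝ} (hε₀ : 0 < ε₀) : ∃ (η ηs S A : ℝ) (q : ℕ), 0 < η ∧ 0 < ηs ∧ 1 ≤ S ∧ 0 < A ∧
    (∀ (h₀ η : ℝ), 0 < h₀ → 0 < η →
      ∀ (T E D : ℝ) (G : Set ℝ) (u : ℝ → V → V) (p : ℝ → V → ℝ), Turb 1 T E D G u p →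
      ∑' k, Mw h₀ η G u k univ ≤ ENNReal.ofReal (16 / 3 / η * A * D)) ∧
    ∀ (T E D : ℝ) (G : Set ℝ) (u : ℝ → V → V) (p : ℝ → V → ℝ), Turb 1 T E D G u p →
      ∀ (δ α β : ℝ) (k₁ m : ℕ), 6 ≤ k₁ → k₁ ≤ m → rr (k₁ - 6) ≤ δ →
        S * (m + 9 : ℕ) * (1 + E ^ 2) ^ 2 ≤ √(2 ^ (m + 9)) →
        1024 * (rr 4 * rr (m + 9)) < α → β + 1024 * (rr 4 * rr (m + 9)) < T →
        2048 * (16 / 3 / η * A * D) * 2 ^ k₁ < (9 / 8) ^ (m + 9 - k₁) →
          CovN (rr (m + 9)) δ {z | z.1 ∈ Icc α β ∧ z.2 ∈ cube ∧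
            ¬ Quiet ε₀ 1 G u (rr (m + 9 + q)) z}
            (HHq η ηs G u k₁ m) := by
  obtain ⟨η, ηs, S, q₀, hη, hηs, hS1, hdich⟩ := dichq hε₀
  obtain ⟨A, hA, hMw⟩ := Mw_sum
  refine ⟨η, ηs, S, A, q₀, hη, hηs, hS1, hA, hMw, ?_⟩
  intro T E D G u p h δ α β k₁ m hk6 hkm hδ hS hα hβ hbig
  have hD := D_nonneg h
  obtain ⟨As, hAs⟩ : ∃ As : Set (ℝ × V), As = {z | z.1 ∈ Icc α β ∧ z.2 ∈ cube ∧
    ¬ Quiet ε₀ 1 G u (rr (m + 9 + q₀)) z} := ⟨_, rfl⟩
  rw [← hAs]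
  obtain ⟨B₀, hB₀⟩ : ∃ B₀ : Set (ℝ × V), B₀ = {z | z ∈ As ∧
    ENNReal.ofReal (rr (m + 4) / 32768) ≤ Mb ηs G u m (cyl (m + 4) z)} := ⟨_, rfl⟩
  obtain ⟨B₁, hB₁⟩ : ∃ B₁ : ℕ × ℕ → Set (ℝ × V), B₁ = fun q => {z | z ∈ As ∧ k₁ ≤ q.2 ∧
    Hv η G u q.1 q.2 z} := ⟨_, rfl⟩
  have hsplit : As ⊆ B₀ ∪ ⋃ q ∈ Finset.HasAntidiagonal.antidiagonal (m + 9), B₁ q := by
    intro z hz
    by_cases hh : ∃ j k, 4 ≤ k ∧ k + j = m + 9 ∧ Hv η G u j k z
    · right
      obtain ⟨j, k, hk4, hkj, hv⟩ := hh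
      simp only [mem_iUnion, exists_prop]
      refine ⟨(j, k), ?_, ?_⟩
      · rw [Finset.HasAntidiagonal.mem_antidiagonal]
        omega
      · rw [hB₁]
        refine ⟨hz, ?_, hv⟩
        show k₁ ≤ k
        by_contra hc
        push Not at hc
        have hzc : z.2 ∈ cube := by
          rw [hAs] at hz
          exact hz.2.1
        have h1 := heavy_fix h hA hη hMw hD hzc hv
        have h2 : (9 / 8 : ℝ) ^ (m + 9 - k₁) ≤ (9 / 8) ^ j :=
          pow_le_pow_right₀ (by norm_num) (by omega)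
        have h3 : (2 : ℝ) ^ k ≤ 2 ^ k₁ := pow_le_pow_right₀ (by norm_num) hc.le
        have h4 : 2048 * (16 / 3 / η * A * D) * 2 ^ k ≤ 2048 * (16 / 3 / η * A * D) * 2 ^ k₁ :=
          mul_le_mul_of_nonneg_left h3 (by positivity)
        linarith
    · left
      push Not at hh
      rw [hB₀]
      refine ⟨hz, ?_⟩
      rw [hAs] at hz
      obtain ⟨h1, h2, h3⟩ := hz
      exact hdich T E D G u p h m hS z.1 z.2 h2 (by linarith [h1.1]) (by linarith [h1.2]) h3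
        fun j k hk4 hkj => hh j k hk4 hkj
  refine CovN.mono ?_ hsplit le_rfl
  unfold HHq
  refine CovN.union ?_ (CovN.biUnion _ fun q hq => ?_)
  · have hr := NE.rrp (m + 4)
    refine costN (l := rr (m + 4) / 32768) (k := m + 4) (by positivity) (fun z hz => ?_)
      (rr_mono (by omega)) ((rr_mono (by omega)).trans hδ) (by linarith)
    rw [hB₀] at hz
    exact hz.2
  · rw [Finset.HasAntidiagonal.mem_antidiagonal] at hq
    obtain ⟨j, k⟩ := q
    simp only at hq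
    have hr := NE.rrp k
    by_cases hk : k₁ ≤ k
    · have eFK : FK η G u k₁ (j, k) = FF η G u (j, k) := if_pos hk
      rw [eFK]
      refine costN (l := rr k * 2 ^ j / 2048) (k := k - 6) (by positivity) (fun z hz => ?_)
        (rr_mono (by omega)) ((rr_mono (by omega)).trans hδ) ?_
      · rw [hB₁] at hz
        obtain ⟨hz1, hz2, hz3⟩ := hz
        have hzc : z.2 ∈ cube := by
          rw [hAs] at hz1
          exact hz1.2.1
        refine (heavy_mass h hzc hz3).trans (measure_mono ?_)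
        have e6 : rr (k - 6) = 64 * rr k := by
          have : k = (k - 6) + 6 := by omega
          conv_rhs => rw [this, rr_add']
          unfold rr
          norm_num
          ring
        have hrj : rr (k + j) ≤ rr k := rr_mono (by omega)
        have h2 : rr k * rr (k + j) ≤ rr k * rr k := mul_le_mul_of_nonneg_left hrj hr.le
        have hrj0 := NE.rrp (k + j)
        rw [cyl_eq]
        apply Set.prod_mono
        · unfold Pool.Agent.Y8.II
          rw [e6]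
          apply Ioo_subset_Ioo
          · have : 0 < rr k * rr (k + j) := by positivity
            nlinarith
          · nlinarith
        · apply ball_subset_ball
          linarith
      · have e6 : rr (k - 6) = 64 * rr k := by
          have : k = (k - 6) + 6 := by omega
          conv_rhs => rw [this, rr_add']
          unfold rr
          norm_num
          ring
        rw [e6]
        have e2 : ((1 : ℝ) / 2) ^ j * 2 ^ j = 1 := by
          rw [← mul_pow]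
          norm_num
        have e : 131072 * (1 / 2) ^ j * (rr k * 2 ^ j / 2048)
            = 64 * rr k * ((1 / 2) ^ j * 2 ^ j) := by ring
        show 64 * rr k ≤ 131072 * (1 / 2) ^ j * (rr k * 2 ^ j / 2048)
        rw [e, e2, mul_one]
    · have : B₁ (j, k) = ∅ := by
        rw [hB₁]
        ext z
        simp only [mem_ofPred_eq, mem_empty_iff_false, iff_false, not_and]
        intro _ h1
        exact absurd h1 hk
      rw [this]
      exact (CovN.empty _ _).mono subset_rfl zero_le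

/-- The contents are summable. -/
theorem contentsq {ε₀ : ℝ} (hε₀ : 0 < ε₀) : ∃ (C : ℝ) (q : ℕ), 0 < C ∧ ∀ (T E D δ α β : ℝ), 0 < δ → 0 < α → β < T →
    ∃ n₀ : ℕ, ∀ (G : Set ℝ) (u : ℝ → V → V) (p : ℝ → V → ℝ), Turb 1 T E D G u p →
      ∃ H : ℕ → ℝ≥0∞, ∑' n, H n ≤ ENNReal.ofReal (C * D) ∧ ∀ n,
        CovN (rr (n + n₀)) δ {z | z.1 ∈ Icc α β ∧ z.2 ∈ cube ∧
          ¬ Quiet ε₀ 1 G u (rr (n + n₀ + q)) z} (H n) := by
  obtain ⟨η, ηs, S, A, q₀, hη, hηs, hS1, hA, hMw, hlev⟩ := levelq hε₀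
  obtain ⟨A', hA', hMb⟩ := Mb_sum ηs hηs
  refine ⟨32768 * 81 * A' + 131072 * 81 * (16 / 3 / η) * A * 9, q₀, by positivity, ?_⟩
  intro T E D δ α β hδ hα hβ
  obtain ⟨k₂, hk₂⟩ : ∃ k₂ : ℕ, rr k₂ < δ := by
    unfold rr
    exact exists_pow_lt_of_lt_one hδ (by norm_num)
  obtain ⟨k₁, hk₁⟩ : ∃ k₁, k₁ = k₂ + 6 := ⟨_, rfl⟩
  have ev1 := ev_sqrt S E
  have ev2 : ∀ᶠ n : ℕ in atTop, rr n < min α (T - β) / 1024 := by
    have h1 : Tendsto rr atTop (𝓝 0) := by
      unfold rr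
      exact tendsto_pow_atTop_nhds_zero_of_lt_one (by norm_num) (by norm_num)
    exact h1.eventually (gt_mem_nhds (by
      have := lt_min hα (sub_pos.2 hβ)
      positivity))
  have ev3 : ∀ᶠ n : ℕ in atTop, 2048 * (16 / 3 / η * A * D) * 2 ^ k₁ < (9 / 8 : ℝ) ^ (n - k₁) := by
    have h1 : Tendsto (fun n : ℕ => (9 / 8 : ℝ) ^ (n - k₁)) atTop atTop :=
      (tendsto_pow_atTop_atTop_of_one_lt (by norm_num)).comp (tendsto_sub_atTop_nat k₁)
    exact h1.eventually_gt_atTop _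
  obtain ⟨N, hN⟩ := eventually_atTop.1 (ev1.and (ev2.and ev3))
  obtain ⟨m₀, hm₀⟩ : ∃ m₀, m₀ = N + k₁ := ⟨_, rfl⟩
  refine ⟨m₀ + 9, fun G u p h => ⟨fun m => HHq η ηs G u k₁ (m + m₀), ?_, ?_⟩⟩
  · have hD := D_nonneg h
    unfold HHq
    rw [ENNReal.tsum_add, ENNReal.tsum_mul_left, ENNReal.tsum_mul_left]
    have h1 : ∑' m, Mb ηs G u (m + m₀) univ ≤ ENNReal.ofReal (A' * D) :=
      (ENNReal.tsum_comp_le_tsum_of_injective (add_left_injective m₀)
        (fun m => Mb ηs G u m univ)).trans (hMb T E D G u p h)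
    have h2 : ∑' m, ∑ q ∈ Finset.HasAntidiagonal.antidiagonal (m + m₀ + 9), FK η G u k₁ q
        ≤ ENNReal.ofReal (131072 * 81 * (16 / 3 / η) * A * 9 * D) := by
      refine (ENNReal.tsum_le_tsum fun m => Finset.sum_le_sum fun q _ => FK_le η G u k₁ q).trans ?_
      refine (ENNReal.tsum_comp_le_tsum_of_injective (f := fun m => m + m₀ + 9) (by
        intro a b hab
        simp only at hab
        omega) (fun n => ∑ q ∈ Finset.HasAntidiagonal.antidiagonal n, FF η G u q)).trans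
          (FF_sum hη hA hMw h)
    refine (add_le_add (mul_le_mul_right (mul_le_mul_right h1 _) _) h2).trans (le_of_eq ?_)
    have e81 : (81 : ℝ≥0∞) = ENNReal.ofReal 81 := by norm_num
    rw [e81, ← ENNReal.ofReal_mul (by norm_num), ← ENNReal.ofReal_mul (by norm_num),
      ← ENNReal.ofReal_add (by positivity) (by positivity)]
    congr 1
    ring
  · intro m
    obtain ⟨c1, c2, c3⟩ := hN (m + m₀ + 9) (by omega)
    have h4 := NE.rrp 4
    have h41 := rr_le1 4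
    have h5 := NE.rrp (m + m₀ + 9)
    obtain ⟨c4, c5⟩ := lt_min_iff.1 ((lt_div_iff₀ (by norm_num)).1 c2)
    have h6 : rr 4 * rr (m + m₀ + 9) ≤ rr (m + m₀ + 9) := mul_le_of_le_one_left h5.le h41
    have := hlev T E D G u p h δ α β k₁ (m + m₀) (by omega) (by omega)
      (by rw [hk₁, Nat.add_sub_cancel]; exact hk₂.le) c1 (by linarith) (by linarith) c3
    rw [show m + (m₀ + 9) = m + m₀ + 9 by ring]
    exact this

/-- The sum of the contents tends to zero with the upper bound of the radii. -/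
theorem contents0q {ε₀ : ℝ} (hε₀ : 0 < ε₀) : ∃ q : ℕ, ∀ {T E D : ℝ} {G : Set ℝ}
    {u : ℝ → V → V} {p : ℝ → V → ℝ}, Turb 1 T E D G u p → ∀ {ε : ℝ}, 0 < ε → ∃ δ : ℝ, 0 < δ ∧ ∀ (α β : ℝ), 0 < α →
      β < T → ∃ (n₀ : ℕ) (H : ℕ → ℝ≥0∞), ∑' n, H n ≤ ENNReal.ofReal ε ∧ ∀ n,
        CovN (rr (n + n₀)) δ {z | z.1 ∈ Icc α β ∧ z.2 ∈ cube ∧
          ¬ Quiet ε₀ 1 G u (rr (n + n₀ + q)) z} (H n) := by
  obtain ⟨η, ηs, S, A, q₀, hη, hηs, hS1, hA, hMw, hlev⟩ := levelq hε₀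
  obtain ⟨A', hA', hMb⟩ := Mb_sum ηs hηs
  refine ⟨q₀, ?_⟩
  intro T E D G u p h ε hε
  have hFF := FF_sum hη hA hMw h
  rw [tsum_anti] at hFF
  have hF : ∑' k, ∑' j, FF η G u (j, k) ≠ ⊤ := ne_top_of_le_ne_top ENNReal.ofReal_ne_top hFF
  obtain ⟨k₁, hk6, hk₁⟩ := FK_small hF (ENNReal.ofReal_pos.2 (half_pos hε))
  refine ⟨rr (k₁ - 6), NE.rrp _, fun α β hα hβ => ?_⟩
  have ev1 := ev_sqrt S E
  have ev2 : ∀ᶠ n : ℕ in atTop, rr n < min α (T - β) / 1024 := by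
    have h1 : Tendsto rr atTop (𝓝 0) := by
      unfold rr
      exact tendsto_pow_atTop_nhds_zero_of_lt_one (by norm_num) (by norm_num)
    exact h1.eventually (gt_mem_nhds (by
      have := lt_min hα (sub_pos.2 hβ)
      positivity))
  have ev3 : ∀ᶠ n : ℕ in atTop, 2048 * (16 / 3 / η * A * D) * 2 ^ k₁ < (9 / 8 : ℝ) ^ (n - k₁) := by
    have h1 : Tendsto (fun n : ℕ => (9 / 8 : ℝ) ^ (n - k₁)) atTop atTop :=
      (tendsto_pow_atTop_atTop_of_one_lt (by norm_num)).comp (tendsto_sub_atTop_nat k₁)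
    exact h1.eventually_gt_atTop _
  have hMf : ∑' k, Mb ηs G u k univ ≠ ⊤ :=
    ne_top_of_le_ne_top ENNReal.ofReal_ne_top (hMb T E D G u p h)
  have hten := ENNReal.tendsto_sum_nat_add _ hMf
  have ev4 : ∀ᶠ n : ℕ in atTop, ∑' m, Mb ηs G u (m + n) univ
      ≤ ENNReal.ofReal (ε / 2 / (32768 * 81)) :=
    hten.eventually (ge_mem_nhds (ENNReal.ofReal_pos.2 (by positivity)))
  obtain ⟨N, hN⟩ := eventually_atTop.1 (ev1.and (ev2.and (ev3.and ev4)))
  obtain ⟨m₀, hm₀⟩ : ∃ m₀, m₀ = N + k₁ := ⟨_, rfl⟩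
  refine ⟨m₀ + 9, fun m => HHq η ηs G u k₁ (m + m₀), ?_, ?_⟩
  · unfold HHq
    rw [ENNReal.tsum_add, ENNReal.tsum_mul_left, ENNReal.tsum_mul_left]
    have h1 := (hN m₀ (by omega)).2.2.2
    have h2 : ∑' m, ∑ q ∈ Finset.HasAntidiagonal.antidiagonal (m + m₀ + 9), FK η G u k₁ q
        ≤ ENNReal.ofReal (ε / 2) := by
      refine (ENNReal.tsum_comp_le_tsum_of_injective (f := fun m => m + m₀ + 9) (by
        intro a b hab
        simp only at hab
        omega) (fun n => ∑ q ∈ Finset.HasAntidiagonal.antidiagonal n, FK η G u k₁ q)).trans ?_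
      rw [tsum_anti]
      exact hk₁
    refine (add_le_add (mul_le_mul_right (mul_le_mul_right h1 _) _) h2).trans (le_of_eq ?_)
    have e81 : (81 : ℝ≥0∞) = ENNReal.ofReal 81 := by norm_num
    rw [e81, ← ENNReal.ofReal_mul (by norm_num), ← ENNReal.ofReal_mul (by norm_num),
      ← ENNReal.ofReal_add (by positivity) (by positivity)]
    congr 1
    field_simp
    ring
  · intro m
    obtain ⟨c1, c2, c3, -⟩ := hN (m + m₀ + 9) (by omega)
    have h4 := NE.rrp 4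
    have h41 := rr_le1 4
    have h5 := NE.rrp (m + m₀ + 9)
    obtain ⟨c4, c5⟩ := lt_min_iff.1 ((lt_div_iff₀ (by norm_num)).1 c2)
    have h6 : rr 4 * rr (m + m₀ + 9) ≤ rr (m + m₀ + 9) := mul_le_of_le_one_left h5.le h41
    have := hlev T E D G u p h (rr (k₁ - 6)) α β k₁ (m + m₀) (by omega) (by omega)
      le_rfl c1 (by linarith) (by linarith) c3
    rw [show m + (m₀ + 9) = m + m₀ + 9 by ring]
    exact this

end Pool.Agent.Q193.NG
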