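import Pool.Agent.Y8.Asm3

/-!
The pointwise bound of the velocity in a moving frame with small dissipation (helper193).
-/

set_option autoImplicit false

open MeasureTheory Set Metric Filter Topology
open scoped ContDiff ENNReal

namespace Pool.Agent.Q193.NG

open H459R3.NS W221.NS Pool.Agent.Y8 Pool.Agent.Y458.NS

/-- Poincaré's inequality for the weighted mean. -/
lemma poin : ∃ C : ℝ, 0 < C ∧ ∀ w : V → V, ContDiff ℝ ∞ w → (∀ i, ∫ z, th z * w z i = 0) →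
    A2 0 4 w ≤ C * B2 0 8 w := by
  obtain ⟨C, hC, hd⟩ := Pool.Agent.Y8.B.p_dypo
  refine ⟨C * 64 * 4, by positivity, fun w hw hm => ?_⟩
  have h1 := hd w hw 0 1 one_pos 2
  have e0 : mo 1 w 0 = 0 := by
    unfold mo
    funext i
    simp only [one_smul, zero_add]
    exact hm i
  rw [e0] at h1
  have e1 : (fun y => w y - 0) = w := by
    funext y
    rw [sub_zero]
  rw [e1] at h1
  have b0 : B2 0 2 w ≤ B2 0 8 w := by
    unfold B2
    exact setIntegral_mono_set (ballint (gsq_sm hw).continuous _ _)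
      (Eventually.of_forall fun x => gsq_nn w x)
      (HasSubset.Subset.eventuallyLE (ball_subset_ball (by norm_num)))
  have b1 : B2 0 4 w ≤ B2 0 8 w := by
    unfold B2
    exact setIntegral_mono_set (ballint (gsq_sm hw).continuous _ _)
      (Eventually.of_forall fun x => gsq_nn w x)
      (HasSubset.Subset.eventuallyLE (ball_subset_ball (by norm_num)))
  have b2 : 0 ≤ B2 0 8 w := by
    unfold B2
    exact setIntegral_nonneg measurableSet_ball fun x _ => gsq_nn w x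
  rw [Finset.sum_range_succ, Finset.sum_range_succ, Finset.sum_range_one] at h1
  norm_num at h1
  have h2 : (9 / 4 * (B2 0 2 w) + 3 / 2 * (1 / 2 * B2 0 4 w) + 1 / 4 * B2 0 8 w)
      ≤ 4 * B2 0 8 w := by linarith
  calc A2 0 4 w ≤ C * 64 * (9 / 4 * (B2 0 2 w) + 3 / 2 * (1 / 2 * B2 0 4 w) + 1 / 4 * B2 0 8 w) := by
        refine h1.trans (le_of_eq ?_)
        ring
    _ ≤ C * 64 * (4 * B2 0 8 w) := mul_le_mul_of_nonneg_left h2 (by positivity)
    _ = _ := by ring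

/-- The pointwise bound in the moving frame. -/
theorem crit4 : ∃ ε C : ℝ, 0 < ε ∧ 0 < C ∧ ∀ (T E D : ℝ) (G : Set ℝ) (u : ℝ → V → V)
    (p : ℝ → V → ℝ), Turb 1 T E D G u p → ∀ r s : ℝ, 0 < r → r ^ 2 < s → s < T →
    ∀ (X Y : ℝ → V) (B C' : ℝ), FPath T r B C' G u p X Y →
      ∫ t in Ioo (s - r ^ 2) s, B2 (X t) (8 * r) (u t) ≤ ε * r →
      ∀ τ ∈ G, s - r ^ 2 / 16 < τ → τ < s → ∀ y ∈ ball (X τ) (r / 4),
        ‖u τ y - Y τ‖ ≤ C / r * (1 + √(r * B2 (X τ) (8 * r) (u τ))) := by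
  obtain ⟨ε₁, C₁, hε₁, hC₁, hloc⟩ := Pool.Agent.Y8.B.p_wlocal
  obtain ⟨C₂, hC₂, hpo⟩ := poin
  refine ⟨ε₁, C₁ * (1 + √C₂), hε₁, by positivity, ?_⟩
  intro T E D G u p h r s hr hs0 hsT X Y B C hX hlt
  have hr2 : 0 < r ^ 2 := by positivity
  obtain ⟨H, hH⟩ : ∃ H : Set ℝ, H = {t | t ∈ Ioo (-1 : ℝ) 0 ∧ s + r ^ 2 * t ∈ G} := ⟨_, rfl⟩
  obtain ⟨k, hwl⟩ : ∃ k, WL2 H (frv r s X u) (frq r s X p) k := by
    rw [hH]
    exact Pool.Agent.Y8.B.p_wfr2 T E D G u p h r s hr hs0 hsT X Y B C hX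
  have hXc : ContinuousOn X G := hX.sm.continuousOn
  -- integrability
  obtain ⟨F, hFd⟩ : ∃ F : ℝ → ℝ, F = G.indicator (fun τ => B2 (X τ) (8 * r) (u τ)) := ⟨_, rfl⟩
  have hFi : Integrable F := by
    rw [hFd]
    exact (integrable_indicator_iff h.openG.measurableSet).2 (B2_mov_int h hXc _)
  have hFi2 : Integrable (fun t => r * F (s + r ^ 2 * t)) :=
    ((hFi.comp_add_left s).comp_mul_left' hr2.ne').const_mul r
  have haeH : ∀ᵐ t ∂(volume.restrict (Ioo (-1 : ℝ) 0)), t ∈ H := by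
    rw [ae_restrict_iff' measurableSet_Ioo]
    have h1 : ∀ᵐ t : ℝ, t ∉ Ioo (-1 : ℝ) 0 \ H := measure_eq_zero_iff_ae_notMem.1 hwl.fullH
    filter_upwards [h1] with t ht htJ
    by_contra hc
    exact ht ⟨htJ, hc⟩
  have hae1 : (fun t => r * F (s + r ^ 2 * t)) =ᵐ[volume.restrict (Ioo (-1 : ℝ) 0)]
      (fun t => B2 0 8 (frv r s X u t)) := by
    filter_upwards [haeH] with t ht
    rw [hH] at ht
    rw [hFd, indicator_of_mem ht.2, Pool.Agent.Y574.NS.B2_frv8 hr (sl_sm h.smooth_u ht.2)]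
  have hae2 : (fun t => B2 0 8 (frv r s X u t)) =ᵐ[volume.restrict (Ioo (-1 : ℝ) 0)]
      (fun t => r * B2 (X (s + r ^ 2 * t)) (8 * r) (u (s + r ^ 2 * t))) := by
    filter_upwards [haeH] with t ht
    rw [hH] at ht
    exact Pool.Agent.Y574.NS.B2_frv8 hr (sl_sm h.smooth_u ht.2)
  have hΓi : IntegrableOn (fun t => B2 0 8 (frv r s X u t)) (Ioo (-1) 0) :=
    (hFi2.integrableOn (s := Ioo (-1 : ℝ) 0)).congr hae1
  have hΓe : ∫ t in Ioo (-1 : ℝ) 0, B2 0 8 (frv r s X u t) ≤ ε₁ := by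
    rw [integral_congr_ae hae2, integral_const_mul]
    have e1 : ∫ t in Ioo (-1 : ℝ) 0, B2 (X (s + r ^ 2 * t)) (8 * r) (u (s + r ^ 2 * t)) =
        (r ^ 2)⁻¹ * ∫ t in Ioo (s - r ^ 2) s, B2 (X t) (8 * r) (u t) := by
      rw [← integral_Ioc_eq_integral_Ioo, ← integral_Ioc_eq_integral_Ioo,
        ← intervalIntegral.integral_of_le (by norm_num), ← intervalIntegral.integral_of_le
        (by linarith), intervalIntegral.integral_comp_add_mul
          (f := fun t => B2 (X t) (8 * r) (u t)) (c := r ^ 2) (by positivity) s, smul_eq_mul]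
      congr 2
      · ring
      · ring
    rw [e1]
    have e2 : r * ((r ^ 2)⁻¹ * ∫ t in Ioo (s - r ^ 2) s, B2 (X t) (8 * r) (u t)) =
        (∫ t in Ioo (s - r ^ 2) s, B2 (X t) (8 * r) (u t)) / r := by
      field_simp
    rw [e2, div_le_iff₀ hr]
    exact hlt
  have hbd0 := hloc H (frv r s X u) (frq r s X p) k hwl hΓi hΓe
  -- the velocity
  intro τ hτ h1 h2 y hy
  obtain ⟨t, ht⟩ : ∃ t, t = (τ - s) / r ^ 2 := ⟨_, rfl⟩
  have htτ : s + r ^ 2 * t = τ := by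
    rw [ht]
    field_simp
    ring
  have ht1 : -1 / 16 < t := by
    rw [ht, lt_div_iff₀ hr2]
    linarith
  have ht2 : t < 0 := by
    rw [ht]
    exact div_neg_of_neg_of_pos (by linarith) hr2
  have htH : t ∈ H := by
    rw [hH]
    exact ⟨⟨by linarith, ht2⟩, by rw [htτ]; exact hτ⟩
  obtain ⟨z, hz⟩ : ∃ z : V, z = r⁻¹ • (y - X τ) := ⟨_, rfl⟩
  have hzy : X τ + r • z = y := by
    rw [hz, smul_smul, mul_inv_cancel₀ hr.ne', one_smul]
    abel
  have hzb : z ∈ ball (0 : V) (1 / 4) := by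
    rw [mem_ball, dist_zero_right, hz, norm_smul, Real.norm_eq_abs, abs_of_pos (inv_pos.2 hr),
      inv_mul_lt_iff₀ hr]
    have h5 := mem_ball.1 hy
    rw [dist_eq_norm] at h5
    linarith
  have hvs : ContDiff ℝ ∞ (frv r s X u t) := sl_sm hwl.smooth_v htH
  have hA : A2 0 4 (frv r s X u t) ≤ C₂ * (r * B2 (X τ) (8 * r) (u τ)) := by
    refine (hpo _ hvs (fun i => hwl.mean t htH i)).trans (le_of_eq ?_)
    have hu' : ContDiff ℝ ∞ (u (s + r ^ 2 * t)) := by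
      rw [htτ]
      exact sl_sm h.smooth_u hτ
    rw [Pool.Agent.Y574.NS.B2_frv8 hr hu', htτ]
  obtain ⟨b, hb⟩ : ∃ b, b = r * B2 (X τ) (8 * r) (u τ) := ⟨_, rfl⟩
  rw [← hb] at hA ⊢
  have hb0 : 0 ≤ b := by
    rw [hb]
    unfold B2
    exact mul_nonneg hr.le (setIntegral_nonneg measurableSet_ball fun x _ => gsq_nn _ x)
  have hsq : √(A2 0 4 (frv r s X u t)) ≤ √C₂ * √b := by
    rw [← Real.sqrt_mul hC₂.le]
    exact Real.sqrt_le_sqrt hA
  have hbd : ∀ i, |frv r s X u t z i| ≤ C₁ * (1 + √C₂) * (1 + √b) := by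
    intro i
    refine (hbd0 t htH ht1 z hzb i).trans ?_
    rw [mul_assoc]
    refine mul_le_mul_of_nonneg_left ?_ hC₁.le
    have := Real.sqrt_nonneg b
    have := Real.sqrt_nonneg C₂
    nlinarith
  rw [pi_norm_le_iff_of_nonneg (by positivity)]
  intro i
  have h3 := hbd i
  have h4 : frv r s X u t z i = r * (u τ (X τ + r • z) i - deriv (fun τ => X τ i) τ) := by
    unfold frv
    rw [htτ]
  have h5 : deriv (fun τ => X τ i) τ = Y τ i :=
    (hasDerivAt_pi.1 (hX.hd τ (h.subG hτ)) i).deriv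
  rw [h4, h5, hzy, abs_mul, abs_of_pos hr] at h3
  rw [Pi.sub_apply, Real.norm_eq_abs]
  have e : C₁ * (1 + √C₂) / r * (1 + √b) = C₁ * (1 + √C₂) * (1 + √b) / r := by ring
  rw [e, le_div_iff₀ hr, mul_comm]
  exact h3

end Pool.Agent.Q193.NG
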