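import Pool.Agent.Q193.NG.Crit
import Pool.Agent.Y7.AN.Fin
import Pool.Agent.Y7.Der8

/-!
The bounds of all derivatives in a moving frame with small dissipation (helper193).
-/

set_option autoImplicit false

open MeasureTheory Set Metric Filter Topology
open scoped ContDiff ENNReal

namespace Pool.Agent.Q193.NG

open H459R3.NS W221.NS Pool.Agent.Y8 Pool.Agent.Y458.NS
open Pool.Agent.TH305.DR (ST SV ST_frv SV_frv)
open Pool.Agent.Y7 (GK GQ vort it_ST it_SV)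

/-- The field in the moving frame. -/
lemma frame {T E D : ℝ} {G : Set ℝ} {u : ℝ → V → V} {p : ℝ → V → ℝ} (h : Turb 1 T E D G u p)
    {ε r s B C : ℝ} {X Y : ℝ → V} (hr : 0 < r) (hs0 : r ^ 2 < s) (hsT : s < T)
    (hX : FPath T r B C G u p X Y)
    (hlt : ∫ t in Ioo (s - r ^ 2) s, B2 (X t) (8 * r) (u t) ≤ ε * r) :
    ∃ k, WL2 {t | t ∈ Ioo (-1 : ℝ) 0 ∧ s + r ^ 2 * t ∈ G} (frv r s X u) (frq r s X p) k ∧
      IntegrableOn (fun t => B2 0 8 (frv r s X u t)) (Ioo (-1) 0) ∧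
      ∫ t in Ioo (-1 : ℝ) 0, B2 0 8 (frv r s X u t) ≤ ε := by
  have hr2 : 0 < r ^ 2 := by positivity
  obtain ⟨k, hwl⟩ := Pool.Agent.Y8.B.p_wfr2 T E D G u p h r s hr hs0 hsT X Y B C hX
  refine ⟨k, hwl, ?_⟩
  obtain ⟨H, hH⟩ : ∃ H : Set ℝ, H = {t | t ∈ Ioo (-1 : ℝ) 0 ∧ s + r ^ 2 * t ∈ G} := ⟨_, rfl⟩
  rw [← hH] at hwl
  have hXc : ContinuousOn X G := hX.sm.continuousOn
  -- integrability
  obtain ⟨F, hFd⟩ : ∃ F : ℝ → ℝ, F = G.indicator (fun τ => B2 (X τ) (8 * r) (u τ)) := ⟨_, rfl⟩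
  have hFi : Integrable F := by
    rw [hFd]
    exact (integrable_indicator_iff h.openG.measurableSet).2 (B2_mov_int h hXc _)
  have hFi2 : Integrable (fun t => r * F (s + r ^ 2 * t)) :=
    ((hFi.comp_add_left s).comp_mul_left' hr2.ne').const_mul r
  have haeH : ∀ᵐ t ∂(volume.restrict (Ioo (-1 : ℝ) 0)), t ∈ H := by
    rw [ae_restrict_iff' measurableSet_Ioo]
    have h1 : ∀ᵐ t : ℝ, t ∉ Ioo (-1 : ℝ) 0 \ H := measure_eq_zero_iff_ae_notMem.1 hwl.fullH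
    filter_upwards [h1] with t ht htJ
    by_contra hc
    exact ht ⟨htJ, hc⟩
  have hae1 : (fun t => r * F (s + r ^ 2 * t)) =ᵐ[volume.restrict (Ioo (-1 : ℝ) 0)]
      (fun t => B2 0 8 (frv r s X u t)) := by
    filter_upwards [haeH] with t ht
    rw [hH] at ht
    rw [hFd, indicator_of_mem ht.2, Pool.Agent.Y574.NS.B2_frv8 hr (sl_sm h.smooth_u ht.2)]
  have hae2 : (fun t => B2 0 8 (frv r s X u t)) =ᵐ[volume.restrict (Ioo (-1 : ℝ) 0)]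
      (fun t => r * B2 (X (s + r ^ 2 * t)) (8 * r) (u (s + r ^ 2 * t))) := by
    filter_upwards [haeH] with t ht
    rw [hH] at ht
    exact Pool.Agent.Y574.NS.B2_frv8 hr (sl_sm h.smooth_u ht.2)
  have hΓi : IntegrableOn (fun t => B2 0 8 (frv r s X u t)) (Ioo (-1) 0) :=
    (hFi2.integrableOn (s := Ioo (-1 : ℝ) 0)).congr hae1
  refine ⟨hΓi, ?_⟩
  rw [integral_congr_ae hae2, integral_const_mul]
  have e1 : ∫ t in Ioo (-1 : ℝ) 0, B2 (X (s + r ^ 2 * t)) (8 * r) (u (s + r ^ 2 * t)) =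
      (r ^ 2)⁻¹ * ∫ t in Ioo (s - r ^ 2) s, B2 (X t) (8 * r) (u t) := by
    rw [← integral_Ioc_eq_integral_Ioo, ← integral_Ioc_eq_integral_Ioo,
      ← intervalIntegral.integral_of_le (by norm_num), ← intervalIntegral.integral_of_le
      (by linarith), intervalIntegral.integral_comp_add_mul
        (f := fun t => B2 (X t) (8 * r) (u t)) (c := r ^ 2) (by positivity) s, smul_eq_mul]
    congr 2
    · ring
    · ring
  rw [e1]
  have e2 : r * ((r ^ 2)⁻¹ * ∫ t in Ioo (s - r ^ 2) s, B2 (X t) (8 * r) (u t)) =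
      (∫ t in Ioo (s - r ^ 2) s, B2 (X t) (8 * r) (u t)) / r := by
    field_simp
  rw [e2, div_le_iff₀ hr]
  exact hlt

/-- The bounds of the derivatives in the moving frame. -/
theorem crit5 : ∃ ε C c : ℝ, 0 < ε ∧ 0 < C ∧ 1 ≤ c ∧ ∀ (T E D : ℝ) (G : Set ℝ) (u : ℝ → V → V)
    (p : ℝ → V → ℝ), Turb 1 T E D G u p → ∀ r s : ℝ, 0 < r → r ^ 2 < s → s < T →
    ∀ (X Y : ℝ → V) (B C' : ℝ), FPath T r B C' G u p X Y →
      ∫ t in Ioo (s - r ^ 2) s, B2 (X t) (8 * r) (u t) ≤ ε * r →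
      ∀ τ ∈ G, s - r ^ 2 / 32 < τ → τ < s → ∀ y ∈ ball (X τ) (r / 16), ∀ n : ℕ,
        ‖iteratedFDeriv ℝ n (vort (u τ)) y‖ ≤ c ^ (n + 1) * n.factorial / r ^ (n + 2) ∧
        ‖iteratedFDeriv ℝ (n + 1) (u τ) y‖ ^ 2 ≤ (c ^ (n + 1) * n.factorial) ^ 2 / r ^ (2 * n + 4)
          * (1 + C * (r * B2 (X τ) (8 * r) (u τ))) := by
  obtain ⟨ε, hε, Cl, hCl, hloc⟩ := Pool.Agent.Y7.a_wderp
  obtain ⟨C₂, hC₂, hpo⟩ := poin
  obtain ⟨-, c₁, hc₁, hK₁⟩ := hCl.sqrt'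
  obtain ⟨-, c₂, hc₂, hK₂⟩ := hCl.shift.sqrt
  refine ⟨ε, C₂, c₁ + c₂, hε, hC₂, by linarith, ?_⟩
  intro T E D G u p h r s hr hs0 hsT X Y B C hX hlt
  have hr2 : 0 < r ^ 2 := by positivity
  obtain ⟨k, hwl, hΓi, hΓe⟩ := frame h hr hs0 hsT hX hlt
  obtain ⟨H, hH⟩ : ∃ H : Set ℝ, H = {t | t ∈ Ioo (-1 : ℝ) 0 ∧ s + r ^ 2 * t ∈ G} := ⟨_, rfl⟩
  rw [← hH] at hwl
  have hbd0 := hloc H (frv r s X u) (frq r s X p) k hwl hΓi hΓe
  intro τ hτ h1 h2 y hy n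
  obtain ⟨t, ht⟩ : ∃ t, t = (τ - s) / r ^ 2 := ⟨_, rfl⟩
  have htτ : s + r ^ 2 * t = τ := by
    rw [ht]
    field_simp
    ring
  have ht1 : -1 / 32 < t := by
    rw [ht, lt_div_iff₀ hr2]
    linarith
  have ht2 : t < 0 := by
    rw [ht]
    exact div_neg_of_neg_of_pos (by linarith) hr2
  have htH : t ∈ H := by
    rw [hH]
    exact ⟨⟨by linarith, ht2⟩, by rw [htτ]; exact hτ⟩
  obtain ⟨z, hz⟩ : ∃ z : V, z = r⁻¹ • (y - X τ) := ⟨_, rfl⟩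
  have hzy : X τ + r • z = y := by
    rw [hz, smul_smul, mul_inv_cancel₀ hr.ne', one_smul]
    abel
  have hzb : z ∈ ball (0 : V) (1 / 16) := by
    rw [mem_ball, dist_zero_right, hz, norm_smul, Real.norm_eq_abs, abs_of_pos (inv_pos.2 hr),
      inv_mul_lt_iff₀ hr]
    have h5 := mem_ball.1 hy
    rw [dist_eq_norm] at h5
    linarith
  have hus : ContDiff ℝ ∞ (u τ) := (h.spv hτ).1
  have hu' : ContDiff ℝ ∞ (u (s + r ^ 2 * t)) := by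
    rw [htτ]
    exact hus
  have hvs : ContDiff ℝ ∞ (frv r s X u t) := sl_sm hwl.smooth_v htH
  have hA : A2 0 4 (frv r s X u t) ≤ C₂ * (r * B2 (X τ) (8 * r) (u τ)) := by
    refine (hpo _ hvs (fun i => hwl.mean t htH i)).trans (le_of_eq ?_)
    rw [Pool.Agent.Y574.NS.B2_frv8 hr hu', htτ]
  have ea : (r : ℝ) ^ (2 * n + 4) = (r ^ (n + 2)) ^ 2 := by
    rw [← pow_mul]
    congr 1
    ring
  have hrn : 0 < r ^ (2 * n + 4) := by positivity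
  have hcc₁ : c₁ ^ (n + 1) * (n.factorial : ℝ) ≤ (c₁ + c₂) ^ (n + 1) * n.factorial := by
    have : c₁ ≤ c₁ + c₂ := by linarith
    gcongr
  have hcc₂ : c₂ ^ (n + 1) * (n.factorial : ℝ) ≤ (c₁ + c₂) ^ (n + 1) * n.factorial := by
    have : c₂ ≤ c₁ + c₂ := by linarith
    gcongr
  constructor
  · have a1 := (hbd0 n t htH ht1 z hzb).1
    rw [ST_frv n hu', htτ, hzy] at a1
    have a2 := it_ST n hus y
    have a3 : ST n (u τ) y ≤ Cl n / r ^ (2 * n + 4) := by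
      rw [le_div_iff₀ hrn, mul_comm]
      exact a1
    have a4 := hK₁ n
    have hCn := hCl.1 n
    have a5 : ‖iteratedFDeriv ℝ n (vort (u τ)) y‖ ≤ √(9 * 3 ^ n * Cl n) / r ^ (n + 2) := by
      refine (abs_le_of_sq_le_sq' ?_ (by positivity)).2
      calc ‖iteratedFDeriv ℝ n (vort (u τ)) y‖ ^ 2 ≤ 9 * 3 ^ n * ST n (u τ) y := a2
        _ ≤ 9 * 3 ^ n * (Cl n / r ^ (2 * n + 4)) := by gcongr
        _ = (√(9 * 3 ^ n * Cl n) / r ^ (n + 2)) ^ 2 := by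
            rw [div_pow, Real.sq_sqrt (by positivity), ← ea]
            ring
    refine a5.trans (div_le_div_of_nonneg_right ?_ (by positivity))
    exact a4.trans hcc₁
  · have a1 := (hbd0 (n + 1) t htH ht1 z hzb).2
    rw [SV_frv n hu', htτ, hzy] at a1
    have a2 := it_SV (n + 1) hus y
    obtain ⟨b, hb⟩ : ∃ b, b = r * B2 (X τ) (8 * r) (u τ) := ⟨_, rfl⟩
    rw [← hb] at hA ⊢
    have hA0 : 0 ≤ A2 0 4 (frv r s X u t) := by
      unfold A2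
      exact setIntegral_nonneg measurableSet_ball fun x _ => nsq_nn _ x
    have hb0 : 0 ≤ C₂ * b := hA0.trans hA
    have hCn := hCl.1 (n + 1)
    have hCn' := hCl.1 n
    have a3 : SV (n + 1) (u τ) y ≤ (Cl (n + 1) + Cl n) * (1 + C₂ * b) / r ^ (2 * n + 4) := by
      rw [le_div_iff₀ hrn, mul_comm]
      refine a1.trans ?_
      calc Cl (n + 1) * (1 + A2 0 4 (frv r s X u t)) ≤ Cl (n + 1) * (1 + C₂ * b) := by gcongr
        _ ≤ (Cl (n + 1) + Cl n) * (1 + C₂ * b) := by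
            gcongr
            linarith
    have a4 := hK₂ n
    have a5 : 3 ^ (n + 2) * (Cl (n + 1) + Cl n) ≤ ((c₁ + c₂) ^ (n + 1) * (n.factorial : ℝ)) ^ 2 := by
      have a6 : √(3 ^ (n + 2) * (Cl (n + 1) + Cl n)) ≤ (c₁ + c₂) ^ (n + 1) * (n.factorial : ℝ) :=
        a4.trans hcc₂
      have a7 := pow_le_pow_left₀ (Real.sqrt_nonneg _) a6 2
      rwa [Real.sq_sqrt (by positivity)] at a7
    calc ‖iteratedFDeriv ℝ (n + 1) (u τ) y‖ ^ 2 ≤ 3 ^ (n + 1 + 1) * SV (n + 1) (u τ) y := a2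
      _ ≤ 3 ^ (n + 1 + 1) * ((Cl (n + 1) + Cl n) * (1 + C₂ * b) / r ^ (2 * n + 4)) := by gcongr
      _ = 3 ^ (n + 2) * (Cl (n + 1) + Cl n) * ((1 + C₂ * b) / r ^ (2 * n + 4)) := by ring
      _ ≤ ((c₁ + c₂) ^ (n + 1) * (n.factorial : ℝ)) ^ 2 * ((1 + C₂ * b) / r ^ (2 * n + 4)) := by
          gcongr
      _ = _ := by ring

end Pool.Agent.Q193.NG
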