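import Pool.Agent.Q193.NG.Slow
import Pool.Agent.Q193.NE.Dich

/-!
The alternative for points which are not quiet (helper193).
-/

set_option autoImplicit false

open MeasureTheory Set Metric Filter Topology
open scoped ContDiff ENNReal

namespace Pool.Agent.Q193.NG

open H459R3.NS W221.NS Pool.Agent.Y7 Pool.Agent.Y8 Pool.Agent.Y458.NS Pool.Agent.TH305.LG
open Pool.Agent.Y8.WS Pool.Agent.Y7.Cov1 Pool.Agent.Q193.NE
open Pool.Agent.Q193.NS (rr_mono rr_le1 abs_le_B rr_add' Bx Bx_meas Ub Ub_meas Mb cyl cyl_eq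
  ball_Bx FtO_cell sc_rr)

/-- The alternative. -/
theorem dichq {ε₀ : ℝ} (hε₀ : 0 < ε₀) : ∃ (η ηs S : ℝ) (q : ℕ), 0 < η ∧ 0 < ηs ∧ 1 ≤ S ∧ ∀ (T E D : ℝ)
    (G : Set ℝ) (u : ℝ → V → V) (p : ℝ → V → ℝ), Turb 1 T E D G u p → ∀ m : ℕ,
      S * (m + 9 : ℕ) * (1 + E ^ 2) ^ 2 ≤ √(2 ^ (m + 9)) → ∀ (t₀ : ℝ) (x₀ : V), x₀ ∈ cube →
        0 < t₀ - 1024 * (rr 4 * rr (m + 9)) → t₀ + 1024 * (rr 4 * rr (m + 9)) < T →
          ¬ Quiet ε₀ 1 G u (rr (m + 9 + q)) (t₀, x₀) →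
          (∀ j k, 4 ≤ k → k + j = m + 9 → ¬ Hv η G u j k (t₀, x₀)) →
            ENNReal.ofReal (rr (m + 4) / 32768) ≤ Mb ηs G u m (cyl (m + 4) (t₀, x₀)) := by
  obtain ⟨ηs, κ, q, hηs, hκ, hslow⟩ := slowq hε₀
  obtain ⟨S₁, σ₁, hS11, hσ₁, hpath⟩ := pathc 4
  obtain ⟨S₂, σ₂, K', hS12, hσ₂, hK', hfast⟩ := fastv
  obtain ⟨Kp, hKp, hwp⟩ := Pool.Agent.Y8.B.p_wpath
  obtain ⟨S, hSd⟩ : ∃ S, S = max S₁ S₂ := ⟨_, rfl⟩
  have hS1 : 1 ≤ S := by rw [hSd]; exact hS11.trans (le_max_left _ _)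
  have hSa : S₁ ≤ S := by rw [hSd]; exact le_max_left _ _
  have hSb : S₂ ≤ S := by rw [hSd]; exact le_max_right _ _
  obtain ⟨σ, hσ⟩ : ∃ σ, σ = min (min σ₁ σ₂) (min 1 (√(κ / K'))) := ⟨_, rfl⟩
  have hσ0 : 0 < σ := by rw [hσ]; positivity
  have hσ1 : σ ≤ 1 := by rw [hσ]; exact (min_le_right _ _).trans (min_le_left _ _)
  have hσσ : σ ≤ σ₁ := by rw [hσ]; exact (min_le_left _ _).trans (min_le_left _ _)
  have hσσ' : σ ≤ σ₂ := by rw [hσ]; exact (min_le_left _ _).trans (min_le_right _ _)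
  have hσκ : K' * σ ^ 2 ≤ κ := by
    have h1 : σ ≤ √(κ / K') := by rw [hσ]; exact (min_le_right _ _).trans (min_le_right _ _)
    have h2 : σ ^ 2 ≤ κ / K' := by
      have h3 := pow_le_pow_left₀ hσ0.le h1 2
      rwa [Real.sq_sqrt (by positivity)] at h3
    rw [le_div_iff₀ hK'] at h2
    linarith
  refine ⟨σ ^ 2, ηs, S / σ, q, by positivity, hηs, ?_, ?_⟩
  · rw [le_div_iff₀ hσ0]
    linarith
  intro T E D G u p h m hm t₀ x₀ hx₀ ht1 ht2 hsing hnh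
  obtain ⟨n, hn⟩ : ∃ n, n = m + 9 := ⟨_, rfl⟩
  rw [← hn] at hm ht1 ht2 hnh
  have hy : ∀ l, ∃ y : V, 4 ≤ l → l ≤ n → ‖x₀ - y‖ ≤ rr l ∧
      ∫⁻ τ in Wi n l t₀, FtO 1 G u (τ, y)
        ≤ ENNReal.ofReal (σ ^ 2 * (9 / 16) ^ (n - l) / (4096 * (rr l * rr n))) := by
    intro l
    by_cases hl : 4 ≤ l ∧ l ≤ n
    · have hln : l + (n - l) = n := by omega
      obtain ⟨y, hy1, hy2⟩ := not_heavy (hnh (n - l) l hl.1 hln)
      rw [hln] at hy2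
      exact ⟨y, fun _ _ => ⟨hy1, hy2⟩⟩
    · exact ⟨0, fun h1 h2 => absurd ⟨h1, h2⟩ hl⟩
  choose y hy using hy
  have hg : Gd σ G u n t₀ x₀ y := fun l h1 h2 => hy l h1 h2
  have hS : S * n * (1 + E ^ 2) ^ 2 ≤ σ * √(2 ^ n) := by
    have h1 := mul_le_mul_of_nonneg_left hm hσ0.le
    have e : σ * (S / σ * n * (1 + E ^ 2) ^ 2) = S * n * (1 + E ^ 2) ^ 2 := by
      field_simp
    rw [e] at h1
    exact h1
  have hE0 : 0 ≤ (n : ℝ) * (1 + E ^ 2) ^ 2 := by positivity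
  have hSS₁ : S₁ * n * (1 + E ^ 2) ^ 2 ≤ σ * √(2 ^ n) := by
    refine le_trans ?_ hS
    rw [mul_assoc, mul_assoc]
    exact mul_le_mul_of_nonneg_right hSa hE0
  have hSS₂ : S₂ * n * (1 + E ^ 2) ^ 2 ≤ σ * √(2 ^ n) := by
    refine le_trans ?_ hS
    rw [mul_assoc, mul_assoc]
    exact mul_le_mul_of_nonneg_right hSb hE0
  have hrn := NE.rrp n
  have e5 : rr (m + 4) = 32 * rr n := by
    rw [hn, show m + 9 = (m + 4) + 5 by ring, rr_add' (m + 4) 5]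
    unfold rr
    norm_num
    ring
  have e52 : rr (m + 4) ^ 2 = 1024 * (rr n * rr n) := by
    rw [e5]
    ring
  have hr4 : rr n ≤ rr 4 := rr_mono (by omega)
  have hlt : 1024 * (rr n * rr n) ≤ 1024 * (rr 4 * rr n) := by
    have := mul_le_mul_of_nonneg_right hr4 hrn.le
    linarith
  have hp4 : 0 < rr n * rr n := by positivity
  have ht0 : t₀ ∈ Ioo 0 T := ⟨by linarith, by linarith⟩
  have e13 : rr (m + 13) = rr (n + 4) := by rw [hn]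
  obtain ⟨Cx, hCx, hpx⟩ := hwp E (rr (m + 4)) (NE.rrp _) (rr_le1 _)
  obtain ⟨X, X', hX0, hX⟩ := hpx T D G u p h t₀ ht0 x₀
  obtain ⟨Cy, hCy, hpy⟩ := hwp E (rr (m + 8)) (NE.rrp _) (rr_le1 _)
  obtain ⟨Y, Y', hY0, hY⟩ := hpy T D G u p h t₀ ht0 x₀
  have hXs : ∀ t, |t - t₀| < rr (m + 4) ^ 2 → ‖X t - x₀‖ ≤ rr (m + 13) := by
    intro t ht
    rw [e52] at ht
    rw [e13]
    exact hpath T E D G u p h σ hσ0 hσσ n (by omega) hSS₁ t₀ x₀ y ht1 ht2 hg (m + 4) (by omega)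
      (by omega) (by omega) X X' _ _ hX hX0 t ht
  have hYs : ∀ t, |t - t₀| < rr (m + 4) ^ 2 → ‖Y t - x₀‖ ≤ rr (m + 13) := by
    intro t ht
    rw [e52] at ht
    rw [e13]
    exact hpath T E D G u p h σ hσ0 hσσ n (by omega) hSS₁ t₀ x₀ y ht1 ht2 hg (m + 8) (by omega)
      (by omega) (by omega) Y Y' _ _ hY hY0 t ht
  have eW : Ioo (t₀ - rr (m + 4) ^ 2) (t₀ + rr (m + 4) ^ 2) = Wi n n t₀ := by
    rw [e52]
    rfl
  obtain ⟨hYi, hYv⟩ := hfast T E D G u p h σ hσ0 hσσ' n (by omega) hSS₂ t₀ x₀ y ht1 ht2 hg (m + 8)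
    (by omega) (by omega) (by omega) Y Y' _ _ hY (fun t ht => by
      rw [← eW] at ht
      refine (hYs t ?_).trans ?_
      · rw [abs_lt]
        constructor <;> linarith [ht.1, ht.2]
      · rw [e13]
        exact rr_mono (by omega))
  have hs := hslow T E D G u p h m t₀ x₀ (by rw [e52]; linarith) (by rw [e52]; linarith) hsing
    X X' Y Y' _ _ _ _ hX hY hY0 hXs hYs (by rw [eW]; exact hYi)
    (by rw [eW]; exact hYv.trans hσκ)
  have hr := NE.rrp (m + 4)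
  have e8 : rr (m + 8) = rr (m + 4) / 16 := by
    rw [show m + 8 = (m + 4) + 4 by ring, rr_add' (m + 4) 4]
    unfold rr
    ring
  have hUm := Ub_meas h ηs m
  unfold Mb
  rw [Measure.smul_apply, Measure.restrict_apply' hUm,
    Measure.restrict_apply' (MeasurableSet.univ.prod Bx_meas), smul_eq_mul]
  have hsub : Ioo (t₀ + rr (m + 8) ^ 2 / 128) (t₀ + rr (m + 8) ^ 2 / 64) ×ˢ ball x₀ (rr (m + 4) / 2)
      ⊆ cyl (m + 4) (t₀, x₀) ∩ Ub ηs G u m ∩ univ ×ˢ Bx := by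
    intro w hw
    refine ⟨⟨?_, hs hw⟩, mem_univ _, ?_⟩
    · rw [cyl_eq]
      obtain ⟨h1, h2⟩ := hw
      refine ⟨⟨?_, ?_⟩, ball_subset_ball (by linarith) h2⟩
      · have := h1.1
        simp only
        linarith [sq_nonneg (rr (m + 4)), sq_nonneg (rr (m + 8))]
      · have := h1.2
        rw [e8] at this
        simp only
        nlinarith
    · have h2 : w.2 ∈ ball x₀ (rr (m + 4) / 2) := hw.2
      have h3 := rr_le1 (m + 4)
      exact ball_Bx hx₀ (by linarith) h2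
  have hvol : volume (Ioo (t₀ + rr (m + 8) ^ 2 / 128) (t₀ + rr (m + 8) ^ 2 / 64) ×ˢ ball x₀ (rr (m + 4) / 2))
      = ENNReal.ofReal (rr (m + 4) ^ 5 / 32768) := by
    rw [Measure.volume_eq_prod, Measure.prod_prod, Real.volume_Ioo,
      Real.volume_pi_ball _ (by positivity), Fintype.card_fin, ← ENNReal.ofReal_mul]
    · congr 1
      rw [e8]
      ring
    · have := sq_nonneg (rr (m + 8))
      linarith
  refine le_trans ?_ (mul_le_mul_right (measure_mono hsub) _)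
  rw [hvol, ← ENNReal.ofReal_mul (by positivity)]
  apply ENNReal.ofReal_le_ofReal
  have e9 : hh (sc 1 0 ^ 2) m = rr (m + 4) ^ 2 := by rw [← sc_hh, sc_rr]
  rw [e9]
  apply le_of_eq
  field_simp

end Pool.Agent.Q193.NG
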