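import Pool.Agent.Q193.NE.Path

/-!
The paths stay near the point, smaller constant (helper193).
-/

set_option autoImplicit false

open MeasureTheory Set Metric Filter Topology
open scoped ContDiff ENNReal

namespace Pool.Agent.Q193.NG

open H459R3.NS W221.NS Pool.Agent.Y7 Pool.Agent.Y8 Pool.Agent.Y458.NS Pool.Agent.TH305.LG
open Pool.Agent.Y8.WS Pool.Agent.Q193.NE
open Pool.Agent.Q193.NS (rr_mono rr_le1 abs_le_B rr_add')

/-- The paths stay near the point. -/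
theorem pathc (j : ℕ) : ∃ S σ₁ : ℝ, 1 ≤ S ∧ 0 < σ₁ ∧ ∀ (T E D : ℝ)
    (G : Set ℝ) (u : ℝ → V → V) (p : ℝ → V → ℝ), Turb 1 T E D G u p → ∀ (σ : ℝ), 0 < σ →
      σ ≤ σ₁ → ∀ (n : ℕ), 4 ≤ n → S * n * (1 + E ^ 2) ^ 2 ≤ σ * √(2 ^ n) →
      ∀ (t₀ : ℝ) (x₀ : V) (y : ℕ → V), 0 < t₀ - 1024 * (rr 4 * rr n) →
        t₀ + 1024 * (rr 4 * rr n) < T → Gd σ G u n t₀ x₀ y → ∀ m, 4 ≤ m → m < n → n ≤ m + 5 →
        ∀ (X Y : ℝ → V) (B C : ℝ), FPath T (rr m) B C G u p X Y → X t₀ = x₀ →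
          ∀ t, |t - t₀| < 1024 * (rr n * rr n) → ‖X t - x₀‖ ≤ rr (n + j) := by
  obtain ⟨k, K₃, S, σ₀, hk, hK₃, hS1, hσ₀, hσ₀1, hch⟩ := chainb
  obtain ⟨K, hK, hpt⟩ := mo_pt
  obtain ⟨K₄, hK₄⟩ : ∃ K₄, K₄ = 5120 * K₃ + 1028 * k + 132 * K := ⟨_, rfl⟩
  have hK₄0 : 0 < K₄ := by rw [hK₄]; positivity
  refine ⟨S, min σ₀ (1 / (2 ^ (j + 1) * K₄)), hS1, lt_min hσ₀ (by positivity), ?_⟩
  intro T E D G u p h σ hσ0 hσ n hn4 hS t₀ x₀ y ht1 ht2 hg m hm4 hmn hnm X Y B C hX hX0 t htt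
  by_contra hfar
  push Not at hfar
  have hσ' : σ ≤ σ₀ := hσ.trans (min_le_left _ _)
  have hσ'' : 2 ^ (j + 1) * K₄ * σ ≤ 1 := by
    have := hσ.trans (min_le_right _ _)
    rw [le_div_iff₀ (by positivity)] at this
    linarith
  have hrn := NE.rrp n
  have hr8 : rr (n + j) ≤ rr n := rr_mono (by omega)
  have hc := hch T E D G u p h σ hσ0 hσ' n hn4 hS t₀ x₀ y ht1 ht2 hg n hn4 le_rfl
  have hWT4 : Wi n 4 t₀ ⊆ Ioo 0 T := fun τ hτ => ⟨ht1.trans hτ.1, hτ.2.trans ht2⟩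
  have hWT : Wi n n t₀ ⊆ Ioo 0 T := (Wi_mono hn4 t₀).trans hWT4
  obtain ⟨⟨iP, hP⟩, -⟩ := gd_int h hσ0.le hg hWT4 hn4 le_rfl
  rw [Nat.sub_self, pow_zero, mul_one] at hP
  have hdd := dd_sum hn4 (le_refl n)
  obtain ⟨N, hN⟩ : ∃ N : ℝ → ℝ, N = fun τ => rr n * PP (fun l => gF (u τ) (y l)) n := ⟨_, rfl⟩
  have hN0 : ∀ τ, 0 ≤ N τ := by
    intro τ
    rw [hN]
    exact mul_nonneg hrn.le (PP_nn (fun l => gF_nn _ _) n)
  have hNi : IntegrableOn N (Wi n n t₀) := by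
    rw [hN]
    exact iP.const_mul _
  have hNint : ∫ τ in Wi n n t₀, N τ ≤ 4 * σ * rr n := by
    rw [hN, integral_const_mul]
    have := mul_le_mul_of_nonneg_left hP hrn.le
    linarith
  have hsubc : uIcc t₀ t ⊆ Wi n n t₀ := by
    have habs := abs_lt.1 htt
    have h2 : 0 < rr n * rr n := by positivity
    intro τ hτ
    rw [mem_uIcc] at hτ
    rcases hτ with h1 | h1
    · exact ⟨by linarith [h1.1], by linarith [h1.2]⟩
    · exact ⟨by linarith [h1.1], by linarith [h1.2]⟩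
  have hsubo : uIoc t₀ t ⊆ Wi n n t₀ := uIoc_subset_uIcc.trans hsubc
  have hae : ∀ᵐ τ ∂(volume.restrict (uIoc t₀ t)), τ ∈ G := by
    rw [ae_restrict_iff' measurableSet_uIoc]
    exact sub_ae h (hsubo.trans hWT)
  have h32 : rr m ≤ 32 * rr n := by
    have h1 : rr (m + 5) ≤ rr n := rr_mono hnm
    have h2 : rr (m + 5) = rr m / 32 := by
      rw [rr_add' m 5]
      unfold rr
      norm_num
      ring
    linarith
  have h2n : 2 * rr n ≤ rr m := by
    have h1 : rr (n - 1) ≤ rr m := rr_mono (by omega)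
    have h2 : rr n = rr (n - 1) / 2 := by
      rw [← NE.rr_succ]
      congr 1
      omega
    linarith
  have hft := first_time (X := X) (Y := Y) (N := N) (G := G)
      (t₀ := t₀) (t := t) (r := rr (n + j)) (L := 1024 * (rr n * rr n))
      (a := K₃ * (σ * 2 ^ n * 5) + k * (1 + E ^ 2)) (b := k + 33 * K)
      (NE.rrp _) (by positivity) (by positivity) (fun τ hτ => hX.hd τ (hWT (hsubc hτ)))
      (intervalIntegrable_iff.2 ((FPath_Y_int h hX).mono_set (hsubo.trans hWT))) htt.le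
      (by rw [hX0]; exact hfar) hae (hNi.mono_set hsubo) hN0 (by
        intro τ hτ hτI hle
        rw [hX0] at hle
        rw [hX.ev τ hτ]
        have hv := h.spv hτ
        have hgn := (hg n hn4 le_rfl).1
        have h1 := hpt (u τ) hv m hm4 (X τ) (y n) (by
          have : ‖X τ - y n‖ ≤ ‖X τ - x₀‖ + ‖x₀ - y n‖ := norm_sub_le_norm_sub_add_norm_sub _ _ _
          linarith)
        have h2 := hpt (u τ) hv n hn4 x₀ (y n) hgn
        have h3 := hc τ ⟨hsubo hτI, hτ⟩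
        have hg0 := gF_nn (u τ) (y n)
        have h4 : gF (u τ) (y n) ≤ PP (fun l => gF (u τ) (y l)) n := by
          unfold PP
          exact Finset.single_le_sum (f := fun l => gF (u τ) (y l)) (fun l _ => gF_nn _ _)
            (Finset.mem_Icc.2 ⟨hn4, le_rfl⟩)
        have h5 : K * (rr m * gF (u τ) (y n)) ≤ 32 * K * N τ := by
          rw [hN]
          calc K * (rr m * gF (u τ) (y n))
              ≤ K * (32 * rr n * PP (fun l => gF (u τ) (y l)) n) := by gcongr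
            _ = _ := by ring
        have h6 : K * (rr n * gF (u τ) (y n)) ≤ K * N τ := by
          rw [hN]
          exact mul_le_mul_of_nonneg_left (mul_le_mul_of_nonneg_left h4 hrn.le) hK.le
        have h7 : ‖mo (rr m) (u τ) (X τ)‖ ≤ ‖mo (rr m) (u τ) (X τ) - u τ (y n)‖
            + ‖mo (rr n) (u τ) x₀ - u τ (y n)‖ + ‖mo (rr n) (u τ) x₀‖ := by
          have e : mo (rr m) (u τ) (X τ) = (mo (rr m) (u τ) (X τ) - u τ (y n))
              - (mo (rr n) (u τ) x₀ - u τ (y n)) + mo (rr n) (u τ) x₀ := by abel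
          calc ‖mo (rr m) (u τ) (X τ)‖ = ‖(mo (rr m) (u τ) (X τ) - u τ (y n))
              - (mo (rr n) (u τ) x₀ - u τ (y n)) + mo (rr n) (u τ) x₀‖ := by rw [← e]
            _ ≤ _ := (norm_add_le _ _).trans (add_le_add_left (norm_sub_le _ _) _)
        have h8 : K₃ * (σ * 2 ^ n * ∑ l ∈ Finset.Icc 4 n, dd n l) ≤ K₃ * (σ * 2 ^ n * 5) := by
          gcongr
        have h9 : rr n * PP (fun l => gF (u τ) (y l)) n = N τ := by rw [hN]
        rw [h9] at h3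
        linarith)
  have h1 : ∫ τ in uIoc t₀ t, N τ ≤ ∫ τ in Wi n n t₀, N τ :=
    setIntegral_mono_set hNi (Filter.Eventually.of_forall hN0) hsubo.eventuallyLE
  have h2 : (k + 33 * K) * ∫ τ in uIoc t₀ t, N τ ≤ (k + 33 * K) * (4 * σ * rr n) :=
    mul_le_mul_of_nonneg_left (h1.trans hNint) (by positivity)
  have h2n1 := NE.two_rr n
  have hEn : (1 + E ^ 2) * rr n ≤ σ := by
    have hE1 : 1 ≤ 1 + E ^ 2 := by linarith [sq_nonneg E]
    have hn1 : (1 : ℝ) ≤ n := by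
      have : 1 ≤ n := by omega
      exact_mod_cast this
    have hs : √((2 : ℝ) ^ n) ≤ 2 ^ n := by
      rw [Real.sqrt_le_left (by positivity)]
      have : (1 : ℝ) ≤ 2 ^ n := one_le_pow₀ (by norm_num)
      nlinarith
    have h3 : 1 + E ^ 2 ≤ σ * 2 ^ n := by
      calc 1 + E ^ 2 = 1 * 1 * (1 + E ^ 2) := by ring
        _ ≤ S * n * (1 + E ^ 2) ^ 2 := by
          have : (1 + E ^ 2) ≤ (1 + E ^ 2) ^ 2 := by nlinarith
          gcongr
        _ ≤ σ * √(2 ^ n) := hS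
        _ ≤ σ * 2 ^ n := mul_le_mul_of_nonneg_left hs hσ0.le
    calc (1 + E ^ 2) * rr n ≤ σ * 2 ^ n * rr n := mul_le_mul_of_nonneg_right h3 hrn.le
      _ = σ := by rw [mul_assoc, h2n1, mul_one]
  have h3 : (K₃ * (σ * 2 ^ n * 5) + k * (1 + E ^ 2)) * (1024 * (rr n * rr n))
      ≤ (5120 * K₃ + 1024 * k) * σ * rr n := by
    have e : (K₃ * (σ * 2 ^ n * 5) + k * (1 + E ^ 2)) * (1024 * (rr n * rr n))
        = 5120 * K₃ * σ * rr n * (2 ^ n * rr n) + 1024 * k * rr n * ((1 + E ^ 2) * rr n) := by ring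
    rw [e, h2n1]
    have h4 : 1024 * k * rr n * ((1 + E ^ 2) * rr n) ≤ 1024 * k * rr n * σ :=
      mul_le_mul_of_nonneg_left hEn (by positivity)
    linarith
  have h4 : (5120 * K₃ + 1024 * k) * σ * rr n + (k + 33 * K) * (4 * σ * rr n)
      = K₄ * σ * rr n := by
    rw [hK₄]
    ring
  have h5 : K₄ * σ * rr n ≤ 1 / 2 * rr (n + j) := by
    have h6 : 2 ^ (j + 1) * rr (n + j) = 2 * rr n := by
      rw [rr_add' n j]
      unfold rr
      rw [pow_succ]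
      have : (2 : ℝ) ^ j * (1 / 2) ^ j = 1 := by
        rw [← mul_pow]
        norm_num
      calc (2 : ℝ) ^ j * 2 * ((1 / 2) ^ n * (1 / 2) ^ j) = 2 * (1 / 2) ^ n * (2 ^ j * (1 / 2) ^ j) := by
            ring
        _ = _ := by rw [this, mul_one]
    have h7 := mul_le_mul_of_nonneg_right hσ'' (NE.rrp (n + j)).le
    have e7 : 2 ^ (j + 1) * K₄ * σ * rr (n + j) = K₄ * σ * (2 ^ (j + 1) * rr (n + j)) := by ring
    rw [e7, h6, one_mul] at h7
    linarith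
  have h6 := NE.rrp (n + j)
  linarith

end Pool.Agent.Q193.NG
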