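import Pool.Agent.Q193.NE.Chain2

/-!
The mean velocity along a path near the point is small in the mean square (helper193).
-/

set_option autoImplicit false

open MeasureTheory Set Metric Filter Topology
open scoped ContDiff ENNReal

namespace Pool.Agent.Q193.NG

open H459R3.NS W221.NS Pool.Agent.Y7 Pool.Agent.Y8 Pool.Agent.Y458.NS Pool.Agent.TH305.LG
open Pool.Agent.Y8.WS Pool.Agent.Q193.NE
open Pool.Agent.Q193.NS (rr_mono rr_le1 abs_le_B rr_add')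

/-- The integral of the square of the sum. -/
lemma PP2_int {T E D : ℝ} {G : Set ℝ} {u : ℝ → V → V} {p : ℝ → V → ℝ} (h : Turb 1 T E D G u p)
    {σ : ℝ} (hσ : 0 ≤ σ) {n : ℕ} {t₀ : ℝ} {x₀ : V}
    {y : ℕ → V} (hg : Gd σ G u n t₀ x₀ y) (hT : Wi n 4 t₀ ⊆ Ioo 0 T) (hn : 4 ≤ n) :
    IntegrableOn (fun t => PP (fun l => gF (u t) (y l)) n ^ 2) (Wi n n t₀) ∧
      ∫ t in Wi n n t₀, PP (fun l => gF (u t) (y l)) n ^ 2 ≤ σ ^ 2 / rr n ^ 2 := by
  have hrn := NE.rrp n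
  obtain ⟨w, hw⟩ : ∃ w : ℕ → ℝ, w = fun l => (3 / 4 : ℝ) ^ (n - l) := ⟨_, rfl⟩
  have hw0 : ∀ l, 0 < w l := fun l => by
    rw [hw]
    positivity
  have key : ∀ l ∈ Finset.Icc 4 n,
      IntegrableOn (fun t => gF (u t) (y l) ^ 2 / w l) (Wi n n t₀) ∧
        ∫ t in Wi n n t₀, gF (u t) (y l) ^ 2 / w l ≤ σ ^ 2 / (4096 * rr n ^ 2) * w l := by
    intro l hl
    rw [Finset.mem_Icc] at hl
    have hrl := NE.rrp l
    have hsub : Wi n n t₀ ⊆ Wi n l t₀ := Wi_mono hl.2 t₀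
    have haeL := sub_ae h ((Wi_mono hl.1 t₀).trans hT)
    obtain ⟨Q, hQ⟩ : ∃ Q, Q = σ ^ 2 * (9 / 16) ^ (n - l) / (4096 * (rr l * rr n)) := ⟨_, rfl⟩
    have hQ0 : 0 ≤ Q := by rw [hQ]; positivity
    have h1 := (hg l hl.1 hl.2).2
    rw [← hQ] at h1
    obtain ⟨⟨i1, i2⟩, -⟩ := gF_int h (Wi_meas n l t₀) (Wi_fin n l t₀) haeL hQ0 h1
    refine ⟨(i1.mono_set hsub).div_const _, ?_⟩
    rw [integral_div]
    have h2 := (setIntegral_mono_set i1 (Eventually.of_forall fun t => sq_nonneg _)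
        hsub.eventuallyLE).trans i2
    rw [div_le_iff₀ (hw0 l)]
    refine h2.trans ?_
    have p916 : w l * w l = (9 / 16 : ℝ) ^ (n - l) := by
      rw [hw]
      simp only
      rw [← mul_pow]
      norm_num
    rw [mul_assoc, p916, hQ, div_mul_eq_mul_div]
    have h3 : rr n ≤ rr l := rr_mono hl.2
    refine div_le_div_of_nonneg_left (by positivity) (by positivity) ?_
    nlinarith
  have hS : ∑ l ∈ Finset.Icc 4 n, w l ≤ 4 := by
    rw [hw]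
    refine (geoJ (3 / 4) (by norm_num) (by norm_num) 4 n).trans ?_
    norm_num
  have hle : ∀ t, PP (fun l => gF (u t) (y l)) n ^ 2
      ≤ 4 * ∑ l ∈ Finset.Icc 4 n, gF (u t) (y l) ^ 2 / w l := by
    intro t
    unfold PP
    have h1 := Finset.sum_sq_le_sum_mul_sum_of_sq_le_mul (Finset.Icc 4 n)
      (r := fun l => gF (u t) (y l))
      (f := w) (g := fun l => gF (u t) (y l) ^ 2 / w l) (fun l _ => (hw0 l).le)
      (fun l _ => div_nonneg (sq_nonneg _) (hw0 l).le) (fun l _ => by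
        have := (hw0 l).ne'
        apply le_of_eq
        field_simp)
    refine h1.trans (mul_le_mul_of_nonneg_right hS ?_)
    exact Finset.sum_nonneg fun l _ => div_nonneg (sq_nonneg _) (hw0 l).le
  have hm := (gd_int h hσ hg hT hn le_rfl).1.1.aestronglyMeasurable.pow 2
  have hi : IntegrableOn (fun t => 4 * ∑ l ∈ Finset.Icc 4 n, gF (u t) (y l) ^ 2 / w l)
      (Wi n n t₀) :=
    (integrable_finsetSum _ fun l hl => (key l hl).1).const_mul 4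
  have hi2 : IntegrableOn (fun t => PP (fun l => gF (u t) (y l)) n ^ 2) (Wi n n t₀) := by
    refine Integrable.mono' hi hm (Eventually.of_forall fun t => ?_)
    rw [Real.norm_eq_abs, abs_of_nonneg (sq_nonneg _)]
    exact hle t
  refine ⟨hi2, ?_⟩
  have h1 : ∫ t in Wi n n t₀, PP (fun l => gF (u t) (y l)) n ^ 2
      ≤ ∫ t in Wi n n t₀, 4 * ∑ l ∈ Finset.Icc 4 n, gF (u t) (y l) ^ 2 / w l :=
    integral_mono hi2 hi hle
  rw [integral_const_mul, integral_finsetSum _ fun l hl => (key l hl).1] at h1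
  have h2 : ∑ l ∈ Finset.Icc 4 n, ∫ t in Wi n n t₀, gF (u t) (y l) ^ 2 / w l
      ≤ ∑ l ∈ Finset.Icc 4 n, σ ^ 2 / (4096 * rr n ^ 2) * w l :=
    Finset.sum_le_sum fun l hl => (key l hl).2
  rw [← Finset.mul_sum] at h2
  have h3 : σ ^ 2 / (4096 * rr n ^ 2) * ∑ l ∈ Finset.Icc 4 n, w l
      ≤ σ ^ 2 / (4096 * rr n ^ 2) * 4 := mul_le_mul_of_nonneg_left hS (by positivity)
  have e : σ ^ 2 / (4096 * rr n ^ 2) = σ ^ 2 / rr n ^ 2 / 4096 := by
    field_simp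
  have h4 : 0 ≤ σ ^ 2 / rr n ^ 2 := by positivity
  rw [e] at h2 h3
  linarith

/-- The mean velocity along a path near the point is small in the mean square. -/
theorem fastv : ∃ S σ₀ K' : ℝ, 1 ≤ S ∧ 0 < σ₀ ∧ 0 < K' ∧ ∀ (T E D : ℝ)
    (G : Set ℝ) (u : ℝ → V → V) (p : ℝ → V → ℝ), Turb 1 T E D G u p → ∀ (σ : ℝ), 0 < σ →
      σ ≤ σ₀ → ∀ (n : ℕ), 4 ≤ n → S * n * (1 + E ^ 2) ^ 2 ≤ σ * √(2 ^ n) →
      ∀ (t₀ : ℝ) (x₀ : V) (y : ℕ → V), 0 < t₀ - 1024 * (rr 4 * rr n) →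
        t₀ + 1024 * (rr 4 * rr n) < T → Gd σ G u n t₀ x₀ y → ∀ m, 4 ≤ m → m < n → n ≤ m + 5 →
        ∀ (X Y : ℝ → V) (B C : ℝ), FPath T (rr m) B C G u p X Y →
          (∀ t ∈ Wi n n t₀, ‖X t - x₀‖ ≤ rr n) →
          IntegrableOn (fun t => ‖Y t‖ ^ 2) (Wi n n t₀) ∧
            ∫ t in Wi n n t₀, ‖Y t‖ ^ 2 ≤ K' * σ ^ 2 := by
  obtain ⟨k, K₃, S, σ₀, hk, hK₃, hS1, hσ₀, hσ₀1, hch⟩ := chainb
  obtain ⟨K, hK, hpt⟩ := mo_pt
  refine ⟨S, σ₀, 4096 * (5 * K₃ + k) ^ 2 + 2 * (k + 33 * K) ^ 2, hS1, hσ₀, by positivity, ?_⟩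
  intro T E D G u p h σ hσ0 hσ' n hn4 hS t₀ x₀ y ht1 ht2 hg m hm4 hmn hnm X Y B C hX hXn
  have hrn := NE.rrp n
  have hc := hch T E D G u p h σ hσ0 hσ' n hn4 hS t₀ x₀ y ht1 ht2 hg n hn4 le_rfl
  have hWT4 : Wi n 4 t₀ ⊆ Ioo 0 T := fun τ hτ => ⟨ht1.trans hτ.1, hτ.2.trans ht2⟩
  have hWT : Wi n n t₀ ⊆ Ioo 0 T := (Wi_mono hn4 t₀).trans hWT4
  obtain ⟨iP, hP⟩ := PP2_int h hσ0.le hg hWT4 hn4
  have hdd := dd_sum hn4 (le_refl n)
  obtain ⟨N, hN⟩ : ∃ N : ℝ → ℝ, N = fun τ => rr n * PP (fun l => gF (u τ) (y l)) n := ⟨_, rfl⟩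
  have hN0 : ∀ τ, 0 ≤ N τ := by
    intro τ
    rw [hN]
    exact mul_nonneg hrn.le (PP_nn (fun l => gF_nn _ _) n)
  have eN : (fun τ => N τ ^ 2) = fun τ => rr n ^ 2 * PP (fun l => gF (u τ) (y l)) n ^ 2 := by
    rw [hN]
    funext τ
    ring
  have hNi : IntegrableOn (fun τ => N τ ^ 2) (Wi n n t₀) := by
    rw [eN]
    exact iP.const_mul _
  have hNint : ∫ τ in Wi n n t₀, N τ ^ 2 ≤ σ ^ 2 := by
    rw [eN, integral_const_mul]
    refine (mul_le_mul_of_nonneg_left hP (by positivity)).trans (le_of_eq ?_)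
    field_simp
  have hae : ∀ᵐ τ ∂(volume.restrict (Wi n n t₀)), τ ∈ G := by
    rw [ae_restrict_iff' (Wi_meas n n t₀)]
    exact sub_ae h hWT
  have h32 : rr m ≤ 32 * rr n := by
    have h1 : rr (m + 5) ≤ rr n := rr_mono hnm
    have h2 : rr (m + 5) = rr m / 32 := by
      rw [rr_add' m 5]
      unfold rr
      norm_num
      ring
    linarith
  have h2n : 2 * rr n ≤ rr m := by
    have h1 : rr (n - 1) ≤ rr m := rr_mono (by omega)
    have h2 : rr n = rr (n - 1) / 2 := by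
      rw [← NE.rr_succ]
      congr 1
      omega
    linarith
  obtain ⟨a, ha⟩ : ∃ a, a = K₃ * (σ * 2 ^ n * 5) + k * (1 + E ^ 2) := ⟨_, rfl⟩
  obtain ⟨b, hb⟩ : ∃ b, b = k + 33 * K := ⟨_, rfl⟩
  have ha0 : 0 < a := by rw [ha]; positivity
  have hb0 : 0 < b := by rw [hb]; positivity
  have hbd : ∀ τ ∈ Wi n n t₀, τ ∈ G → ‖Y τ‖ ≤ a + b * N τ := by
    intro τ hτI hτ
    have hle := hXn τ hτI
    rw [hX.ev τ hτ, ha, hb]
    have hv := h.spv hτ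
    have hgn := (hg n hn4 le_rfl).1
    have h1 := hpt (u τ) hv m hm4 (X τ) (y n) (by
      have : ‖X τ - y n‖ ≤ ‖X τ - x₀‖ + ‖x₀ - y n‖ := norm_sub_le_norm_sub_add_norm_sub _ _ _
      linarith)
    have h2 := hpt (u τ) hv n hn4 x₀ (y n) hgn
    have h3 := hc τ ⟨hτI, hτ⟩
    have hg0 := gF_nn (u τ) (y n)
    have h4 : gF (u τ) (y n) ≤ PP (fun l => gF (u τ) (y l)) n := by
      unfold PP
      exact Finset.single_le_sum (f := fun l => gF (u τ) (y l)) (fun l _ => gF_nn _ _)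
        (Finset.mem_Icc.2 ⟨hn4, le_rfl⟩)
    have h5 : K * (rr m * gF (u τ) (y n)) ≤ 32 * K * N τ := by
      rw [hN]
      calc K * (rr m * gF (u τ) (y n))
          ≤ K * (32 * rr n * PP (fun l => gF (u τ) (y l)) n) := by gcongr
        _ = _ := by ring
    have h6 : K * (rr n * gF (u τ) (y n)) ≤ K * N τ := by
      rw [hN]
      exact mul_le_mul_of_nonneg_left (mul_le_mul_of_nonneg_left h4 hrn.le) hK.le
    have h7 : ‖mo (rr m) (u τ) (X τ)‖ ≤ ‖mo (rr m) (u τ) (X τ) - u τ (y n)‖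
        + ‖mo (rr n) (u τ) x₀ - u τ (y n)‖ + ‖mo (rr n) (u τ) x₀‖ := by
      have e : mo (rr m) (u τ) (X τ) = (mo (rr m) (u τ) (X τ) - u τ (y n))
          - (mo (rr n) (u τ) x₀ - u τ (y n)) + mo (rr n) (u τ) x₀ := by abel
      calc ‖mo (rr m) (u τ) (X τ)‖ = ‖(mo (rr m) (u τ) (X τ) - u τ (y n))
          - (mo (rr n) (u τ) x₀ - u τ (y n)) + mo (rr n) (u τ) x₀‖ := by rw [← e]
        _ ≤ _ := (norm_add_le _ _).trans (add_le_add_left (norm_sub_le _ _) _)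
    have h8 : K₃ * (σ * 2 ^ n * ∑ l ∈ Finset.Icc 4 n, dd n l) ≤ K₃ * (σ * 2 ^ n * 5) := by
      gcongr
    have h9 : rr n * PP (fun l => gF (u τ) (y l)) n = N τ := by rw [hN]
    rw [h9] at h3
    linarith
  have h2n1 := NE.two_rr n
  have hEn : (1 + E ^ 2) * rr n ≤ σ := by
    have hE1 : 1 ≤ 1 + E ^ 2 := by linarith [sq_nonneg E]
    have hn1 : (1 : ℝ) ≤ n := by
      have : 1 ≤ n := by omega
      exact_mod_cast this
    have hs : √((2 : ℝ) ^ n) ≤ 2 ^ n := by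
      rw [Real.sqrt_le_left (by positivity)]
      have : (1 : ℝ) ≤ 2 ^ n := one_le_pow₀ (by norm_num)
      nlinarith
    have h3 : 1 + E ^ 2 ≤ σ * 2 ^ n := by
      calc 1 + E ^ 2 = 1 * 1 * (1 + E ^ 2) := by ring
        _ ≤ S * n * (1 + E ^ 2) ^ 2 := by
          have : (1 + E ^ 2) ≤ (1 + E ^ 2) ^ 2 := by nlinarith
          gcongr
        _ ≤ σ * √(2 ^ n) := hS
        _ ≤ σ * 2 ^ n := mul_le_mul_of_nonneg_left hs hσ0.le
    calc (1 + E ^ 2) * rr n ≤ σ * 2 ^ n * rr n := mul_le_mul_of_nonneg_right h3 hrn.le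
      _ = σ := by rw [mul_assoc, h2n1, mul_one]
  have har : a * rr n ≤ (5 * K₃ + k) * σ := by
    have e : a * rr n = 5 * K₃ * σ * (2 ^ n * rr n) + k * ((1 + E ^ 2) * rr n) := by
      rw [ha]
      ring
    rw [e, h2n1]
    have h4 := mul_le_mul_of_nonneg_left hEn hk.le
    linarith
  have hYm : AEStronglyMeasurable (fun t => ‖Y t‖ ^ 2) (volume.restrict (Wi n n t₀)) :=
    ((FPath_Y_int h hX).mono_set hWT).aestronglyMeasurable.norm.pow 2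
  have hc2 : IntegrableOn (fun _ : ℝ => 2 * a ^ 2) (Wi n n t₀) := integrableOn_const (Wi_fin n n t₀)
  have hbi : IntegrableOn (fun τ => 2 * a ^ 2 + 2 * b ^ 2 * N τ ^ 2) (Wi n n t₀) :=
    hc2.add (hNi.const_mul _)
  have hle : ∀ᵐ τ ∂(volume.restrict (Wi n n t₀)), ‖Y τ‖ ^ 2 ≤ 2 * a ^ 2 + 2 * b ^ 2 * N τ ^ 2 := by
    filter_upwards [hae, ae_restrict_mem (Wi_meas n n t₀)] with τ h1 h2
    have h3 := hbd τ h2 h1
    have h4 := norm_nonneg (Y τ)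
    have h5 : ‖Y τ‖ ^ 2 ≤ (a + b * N τ) ^ 2 := pow_le_pow_left₀ h4 h3 2
    nlinarith [sq_nonneg (a - b * N τ)]
  have hi : IntegrableOn (fun t => ‖Y t‖ ^ 2) (Wi n n t₀) := by
    refine Integrable.mono' hbi hYm ?_
    filter_upwards [hle] with τ h1
    rw [Real.norm_eq_abs, abs_of_nonneg (sq_nonneg _)]
    exact h1
  refine ⟨hi, (integral_mono_ae hi hbi hle).trans ?_⟩
  have e1 : ∫ τ in Wi n n t₀, 2 * b ^ 2 * N τ ^ 2 = 2 * b ^ 2 * ∫ τ in Wi n n t₀, N τ ^ 2 :=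
    integral_const_mul _ _
  have e2 : ∫ _τ in Wi n n t₀, 2 * a ^ 2 = 2 * (1024 * (rr n * rr n)) * (2 * a ^ 2) := by
    rw [setIntegral_const, smul_eq_mul, Wi_vol]
  rw [integral_add hc2 (hNi.const_mul _), e1, e2, ← hb]
  have h5 : 2 * (1024 * (rr n * rr n)) * (2 * a ^ 2) = 4096 * (a * rr n) ^ 2 := by ring
  have h6 : (a * rr n) ^ 2 ≤ ((5 * K₃ + k) * σ) ^ 2 := pow_le_pow_left₀ (by positivity) har 2
  have h7 := mul_le_mul_of_nonneg_left hNint (by positivity : 0 ≤ 2 * b ^ 2)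
  rw [h5]
  nlinarith

end Pool.Agent.Q193.NG
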