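import Pool.Agent.Q193.NG.Crit5
import Pool.Agent.Q193.NG.Path
import Pool.Agent.Q193.NG.Vel
import Pool.Agent.Q193.NS.Slow

/-!
Quiet cylinders (helper193).
-/

set_option autoImplicit false

open MeasureTheory Set Metric Filter Topology
open scoped ContDiff ENNReal

namespace Pool.Agent.Q193.NG

open H459R3.NS W221.NS Pool.Agent.Y7 Pool.Agent.Y8 Pool.Agent.Y8.WS Pool.Agent.TH305.LG
open Pool.Agent.Y7.Cov1 Pool.Agent.Y458.NS
open Pool.Agent.Q193.NS (rr_mono rr_le1 rr_add')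
open Pool.Agent.Y7 (vort)

/-- The solution is quiet at the point `z` at the scale `r`. -/
structure Quiet (ε ν : ℝ) (G : Set ℝ) (u : ℝ → V → V) (r : ℝ) (z : ℝ × V) : Prop where
  reg : ¬ SingPt G u z.1 z.2
  vel : ∀ n : ℕ, ∫⁻ t in G ∩ Ioo (z.1 - r ^ 2 / ν) (z.1 + r ^ 2 / ν),
    (⨆ x ∈ ball z.2 r, ENNReal.ofReal ‖iteratedFDeriv ℝ n (u t) x‖) ^ 2
      ≤ ENNReal.ofReal ((ε ^ (n + 1) * n.factorial) ^ 2 * ν / r ^ (2 * n))
  vor : ∀ t ∈ G ∩ Ioo (z.1 - r ^ 2 / ν) (z.1 + r ^ 2 / ν), ∀ x ∈ ball z.2 r, ∀ n : ℕ,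
    ‖iteratedFDeriv ℝ n (vort (u t)) x‖ ≤ ε ^ (n + 1) * n.factorial * ν / r ^ (n + 2)

/-- The bounds from the pointwise bound in the frame. -/
lemma quiet_of {T E D : ℝ} {G : Set ℝ} {u : ℝ → V → V} {p : ℝ → V → ℝ} (h : Turb 1 T E D G u p)
    {ε C C₃ c r s ρ d t₀ B C' κ : ℝ} {x₀ : V} {Y Y' : ℝ → V} (hε : 0 < ε) (hC : 0 < C) (hC₃ : 0 < C₃) (hc : 1 ≤ c) (hr : 0 < r)
    (hρ0 : 0 < ρ) (hρ : ρ ≤ r / 32) (hd0 : 0 ≤ d) (hd : d ≤ r / 32)
    (hs0 : r ^ 2 < s) (hsT : s < T) (hY : FPath T r B C' G u p Y Y')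
    (ht1 : t₀ + r ^ 2 / 128 < s) (ht2 : s < t₀ + r ^ 2 / 64) (ht0 : r ^ 2 < t₀)
    (htT : t₀ + r ^ 2 < T)
    (hYs : ∀ t, |t - t₀| < r ^ 2 → ‖Y t - x₀‖ ≤ d)
    (hYi : IntegrableOn (fun t => ‖Y' t‖ ^ 2) (Ioo (t₀ - r ^ 2) (t₀ + r ^ 2)))
    (hYv : ∫ t in Ioo (t₀ - r ^ 2) (t₀ + r ^ 2), ‖Y' t‖ ^ 2 ≤ κ)
    (hint : ∫ t in Ioo (s - r ^ 2) s, B2 (Y t) (8 * r) (u t) ≤ ε * r)
    (hpt : ∀ τ ∈ G, s - r ^ 2 / 16 < τ → τ < s → ∀ y ∈ ball (Y τ) (r / 4),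
        ‖u τ y - Y' τ‖ ≤ C / r * (1 + √(r * B2 (Y τ) (8 * r) (u τ))))
    (hpt5 : ∀ τ ∈ G, s - r ^ 2 / 32 < τ → τ < s → ∀ y ∈ ball (Y τ) (r / 16), ∀ n : ℕ,
        ‖iteratedFDeriv ℝ n (vort (u τ)) y‖ ≤ c ^ (n + 1) * n.factorial / r ^ (n + 2) ∧
        ‖iteratedFDeriv ℝ (n + 1) (u τ) y‖ ^ 2 ≤ (c ^ (n + 1) * n.factorial) ^ 2 / r ^ (2 * n + 4)
          * (1 + C₃ * (r * B2 (Y τ) (8 * r) (u τ)))) :
    (∫⁻ t in G ∩ Ioo (t₀ - ρ ^ 2) (t₀ + ρ ^ 2), (⨆ x ∈ ball x₀ ρ, ENNReal.ofReal ‖u t x‖) ^ 2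
        ≤ ENNReal.ofReal (2 * κ + 4 * (C / r) ^ 2 * (2 * ρ ^ 2 + r * (ε * r)))) ∧
    (∀ t ∈ G ∩ Ioo (t₀ - ρ ^ 2) (t₀ + ρ ^ 2), ∀ x ∈ ball x₀ ρ, ∀ n : ℕ,
      ‖iteratedFDeriv ℝ n (vort (u t)) x‖ ≤ c ^ (n + 1) * n.factorial / r ^ (n + 2)) ∧
    ∀ n : ℕ, ∫⁻ t in G ∩ Ioo (t₀ - ρ ^ 2) (t₀ + ρ ^ 2),
      (⨆ x ∈ ball x₀ ρ, ENNReal.ofReal ‖iteratedFDeriv ℝ (n + 1) (u t) x‖) ^ 2
        ≤ ENNReal.ofReal ((c ^ (n + 1) * n.factorial) ^ 2 / r ^ (2 * n + 4)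
          * (2 * ρ ^ 2 + C₃ * (r * (ε * r)))) := by
  have hr2 : 0 < r ^ 2 := by positivity
  have hρ2 : ρ ^ 2 ≤ r ^ 2 / 1024 := by nlinarith
  have hρ20 : 0 < ρ ^ 2 := by positivity
  obtain ⟨W, hW⟩ : ∃ W, W = G ∩ Ioo (t₀ - ρ ^ 2) (t₀ + ρ ^ 2) := ⟨_, rfl⟩
  have hWm : MeasurableSet W := by
    rw [hW]
    exact h.openG.measurableSet.inter measurableSet_Ioo
  obtain ⟨b, hb⟩ : ∃ b : ℝ → ℝ, b = fun τ => B2 (Y τ) (8 * r) (u τ) := ⟨_, rfl⟩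
  have hb0 : ∀ τ, 0 ≤ b τ := fun τ => by
    rw [hb]
    exact B2_nn' _ _ _
  have hYG : ContinuousOn Y G := fun τ hτ => (hY.hd τ (h.subG hτ)).continuousAt.continuousWithinAt
  have hbi : IntegrableOn b G := by
    rw [hb]
    exact B2_mov_int h hYG _
  have hIT : Ioo (s - r ^ 2) s ⊆ Ioo 0 T := fun τ hτ => ⟨by linarith [hτ.1], hτ.2.trans hsT⟩
  have hbi2 : IntegrableOn b (Ioo (s - r ^ 2) s) := hbi.mono_set_ae (sub_ae h hIT)
  have hWs : W ⊆ Ioo (s - r ^ 2) s := by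
    rw [hW]
    rintro τ ⟨-, h1, h2⟩
    exact ⟨by linarith, by linarith⟩
  have hbWle : ∀ S : Set ℝ, S ⊆ W → ∫ τ in S, b τ ≤ ε * r := by
    intro S hS
    refine (setIntegral_mono_set hbi2 (Eventually.of_forall hb0) (hS.trans hWs).eventuallyLE).trans
      ?_
    rw [hb]
    exact hint
  have hbW := hbWle W subset_rfl
  have hbWi : IntegrableOn b W := hbi2.mono_set hWs
  have hWv : volume W ≤ ENNReal.ofReal (2 * ρ ^ 2) := by
    rw [hW]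
    refine (measure_mono inter_subset_right).trans ?_
    rw [Real.volume_Ioo]
    apply ENNReal.ofReal_le_ofReal
    linarith
  have hWf : volume W ≠ ⊤ := ne_top_of_le_ne_top ENNReal.ofReal_ne_top hWv
  have hc1 : Integrable (fun _ : ℝ => (1 : ℝ)) (volume.restrict W) := integrableOn_const hWf
  have hc2 : Integrable (fun _ : ℝ => (2 : ℝ)) (volume.restrict W) := integrableOn_const hWf
  have hWrS : ∀ S : Set ℝ, S ⊆ W → volume.real S ≤ 2 * ρ ^ 2 := by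
    intro S hS
    unfold Measure.real
    exact ENNReal.toReal_le_of_le_ofReal (by positivity) ((measure_mono hS).trans hWv)
  have hWr : volume.real W ≤ 2 * ρ ^ 2 := hWrS W subset_rfl
  have hWG : W ⊆ G := by
    rw [hW]
    exact inter_subset_left
  have hWI : ∀ τ ∈ W, τ ∈ Ioo (t₀ - ρ ^ 2) (t₀ + ρ ^ 2) := fun τ hτ => by
    rw [hW] at hτ
    exact hτ.2
  have hnear : ∀ τ ∈ W, ‖Y τ - x₀‖ ≤ r / 32 := by
    intro τ hτ
    have hτI := hWI τ hτ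
    refine (hYs τ ?_).trans hd
    rw [abs_lt]
    constructor
    · linarith [hτI.1]
    · linarith [hτI.2]
  -- the pointwise bound
  have hkey : ∀ τ ∈ W, ∀ y ∈ ball x₀ ρ, ‖u τ y - Y' τ‖ ≤ C / r * (1 + √(r * b τ)) := by
    intro τ hτ y hy
    have hτI := hWI τ hτ
    have h1 := hnear τ hτ
    rw [hb]
    refine hpt τ (hWG hτ) (by linarith [hτI.1]) (by linarith [hτI.2]) y ?_
    rw [mem_ball, dist_eq_norm] at hy ⊢
    have h2 : ‖y - Y τ‖ ≤ ‖y - x₀‖ + ‖Y τ - x₀‖ := by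
      rw [norm_sub_rev (Y τ)]
      exact norm_sub_le_norm_sub_add_norm_sub _ _ _
    linarith
  have hWT : W ⊆ Ioo 0 T := hWG.trans h.subG
  have hkey5 : ∀ τ ∈ W, ∀ y ∈ ball x₀ ρ, ∀ n : ℕ,
      ‖iteratedFDeriv ℝ n (vort (u τ)) y‖ ≤ c ^ (n + 1) * n.factorial / r ^ (n + 2) ∧
        ‖iteratedFDeriv ℝ (n + 1) (u τ) y‖ ^ 2 ≤ (c ^ (n + 1) * n.factorial) ^ 2 / r ^ (2 * n + 4)
          * (1 + C₃ * (r * b τ)) := by
    intro τ hτ y hy
    have hτI := hWI τ hτ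
    have h1 := hnear τ hτ
    rw [hb]
    refine hpt5 τ (hWG hτ) (by linarith [hτI.1]) (by linarith [hτI.2]) y ?_
    rw [mem_ball, dist_eq_norm] at hy ⊢
    have h2 : ‖y - Y τ‖ ≤ ‖y - x₀‖ + ‖Y τ - x₀‖ := by
      rw [norm_sub_rev (Y τ)]
      exact norm_sub_le_norm_sub_add_norm_sub _ _ _
    linarith
  refine ⟨?_, ?_, ?_⟩
  · -- the velocity
    rw [← hW]
    have hWJ : W ⊆ Ioo (t₀ - r ^ 2) (t₀ + r ^ 2) := fun τ hτ => by
      have := hWI τ hτ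
      exact ⟨by linarith [this.1], by linarith [this.2]⟩
    have hCr : 0 < C / r := by positivity
    obtain ⟨M, hM⟩ : ∃ M : ℝ → ℝ, M = fun τ => 2 * ‖Y' τ‖ ^ 2 + 4 * (C / r) ^ 2 * (1 + r * b τ) :=
      ⟨_, rfl⟩
    have iY := hYi.mono_set hWJ
    have hMi : IntegrableOn M W := by
      rw [hM]
      exact (iY.const_mul 2).add ((hc1.add (hbWi.const_mul r)).const_mul _)
    have hM0 : ∀ τ, 0 ≤ M τ := by
      intro τ
      rw [hM]
      have := hb0 τ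
      positivity
    have hle : ∀ τ ∈ W, (⨆ x ∈ ball x₀ ρ, ENNReal.ofReal ‖u τ x‖) ^ 2 ≤ ENNReal.ofReal (M τ) := by
      intro τ hτ
      have h1 : (⨆ x ∈ ball x₀ ρ, ENNReal.ofReal ‖u τ x‖) ≤ ENNReal.ofReal (√(M τ)) := by
        refine iSup₂_le fun x hx => ENNReal.ofReal_le_ofReal ?_
        have a1 := hkey τ hτ x hx
        refine (abs_le_of_sq_le_sq' ?_ (Real.sqrt_nonneg _)).2
        rw [Real.sq_sqrt (hM0 τ), hM]
        have a2 : ‖u τ x‖ ≤ ‖Y' τ‖ + C / r * (1 + √(r * b τ)) := by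
          have := norm_add_le (u τ x - Y' τ) (Y' τ)
          rw [sub_add_cancel] at this
          linarith
        have a3 : 0 ≤ r * b τ := mul_nonneg hr.le (hb0 τ)
        have a4 := Real.sqrt_nonneg (r * b τ)
        have a5 := Real.sq_sqrt a3
        obtain ⟨q, hq⟩ : ∃ q, q = √(r * b τ) := ⟨_, rfl⟩
        rw [← hq] at a2 a4 a5
        have a6 : ‖u τ x‖ ^ 2 ≤ (‖Y' τ‖ + C / r * (1 + q)) ^ 2 :=
          pow_le_pow_left₀ (norm_nonneg _) a2 2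
        refine a6.trans ?_
        have a7 : (‖Y' τ‖ + C / r * (1 + q)) ^ 2
            ≤ 2 * ‖Y' τ‖ ^ 2 + 2 * ((C / r) ^ 2 * (1 + q) ^ 2) := by
          nlinarith [sq_nonneg (‖Y' τ‖ - C / r * (1 + q))]
        refine a7.trans ?_
        have a8 : (1 + q) ^ 2 ≤ 2 * (1 + r * b τ) := by
          rw [← a5]
          nlinarith [sq_nonneg (1 - q)]
        have a9 := mul_le_mul_of_nonneg_left a8 (sq_nonneg (C / r))
        show _ ≤ 2 * ‖Y' τ‖ ^ 2 + 4 * (C / r) ^ 2 * (1 + r * b τ)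
        linarith
      refine (pow_le_pow_left' h1 2).trans ?_
      rw [← ENNReal.ofReal_pow (Real.sqrt_nonneg _), Real.sq_sqrt (hM0 τ)]
    refine (setLIntegral_mono' hWm hle).trans ?_
    rw [← ofReal_integral_eq_lintegral_ofReal hMi (Eventually.of_forall hM0)]
    apply ENNReal.ofReal_le_ofReal
    have iB : IntegrableOn (fun τ => 4 * (C / r) ^ 2 * (1 + r * b τ)) W :=
      (hc1.add (hbWi.const_mul r)).const_mul _
    have e0 : ∫ τ in W, (1 + r * b τ) = volume.real W * 1 + r * ∫ τ in W, b τ := by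
      rw [integral_add hc1 (hbWi.const_mul r), integral_const_mul, setIntegral_const, smul_eq_mul]
    have e1 : ∫ τ in W, M τ = 2 * (∫ τ in W, ‖Y' τ‖ ^ 2)
        + 4 * (C / r) ^ 2 * (volume.real W * 1 + r * ∫ τ in W, b τ) := by
      rw [hM]
      simp only
      rw [integral_add (iY.const_mul 2) iB, integral_const_mul, integral_const_mul, e0]
    have e2 : ∫ τ in W, ‖Y' τ‖ ^ 2 ≤ κ :=
      (setIntegral_mono_set hYi (Eventually.of_forall fun τ => sq_nonneg _)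
        hWJ.eventuallyLE).trans hYv
    have e3 : (volume.real W * 1 + r * ∫ τ in W, b τ) ≤ 2 * ρ ^ 2 + r * (ε * r) := by
      have := mul_le_mul_of_nonneg_left hbW hr.le
      linarith
    have e4 := mul_le_mul_of_nonneg_left e3 (by positivity : 0 ≤ 4 * (C / r) ^ 2)
    rw [e1]
    linarith
  · -- the vorticity
    rw [← hW]
    exact fun t ht x hx n => (hkey5 t ht x hx n).1
  · -- the derivatives of the velocity
    intro n
    rw [← hW]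
    obtain ⟨K, hK⟩ : ∃ K : ℝ, K = (c ^ (n + 1) * (n.factorial : ℝ)) ^ 2 / r ^ (2 * n + 4) :=
      ⟨_, rfl⟩
    rw [← hK]
    have hK0 : 0 < K := by
      rw [hK]
      have : 0 < c := by linarith
      positivity
    obtain ⟨M2, hM2⟩ : ∃ M2 : ℝ → ℝ, M2 = fun τ => K * (1 + C₃ * (r * b τ)) := ⟨_, rfl⟩
    have hM2i : IntegrableOn M2 W := by
      rw [hM2]
      exact ((hc1.add ((hbWi.const_mul r).const_mul C₃)).const_mul _)
    have hM20 : ∀ τ, 0 ≤ M2 τ := by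
      intro τ
      rw [hM2]
      have := hb0 τ
      positivity
    have hle : ∀ τ ∈ W, (⨆ x ∈ ball x₀ ρ, ENNReal.ofReal ‖iteratedFDeriv ℝ (n + 1) (u τ) x‖) ^ 2
        ≤ ENNReal.ofReal (M2 τ) := by
      intro τ hτ
      have h1 : (⨆ x ∈ ball x₀ ρ, ENNReal.ofReal ‖iteratedFDeriv ℝ (n + 1) (u τ) x‖)
          ≤ ENNReal.ofReal (√(M2 τ)) := by
        refine iSup₂_le fun x hx => ENNReal.ofReal_le_ofReal ?_
        have a1 := (hkey5 τ hτ x hx n).2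
        rw [← hK] at a1
        refine (abs_le_of_sq_le_sq' ?_ (Real.sqrt_nonneg _)).2
        rw [Real.sq_sqrt (hM20 τ), hM2]
        exact a1
      refine (pow_le_pow_left' h1 2).trans ?_
      rw [← ENNReal.ofReal_pow (Real.sqrt_nonneg _), Real.sq_sqrt (hM20 τ)]
    refine (setLIntegral_mono' hWm hle).trans ?_
    rw [← ofReal_integral_eq_lintegral_ofReal hM2i (Eventually.of_forall hM20)]
    apply ENNReal.ofReal_le_ofReal
    rw [hM2]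
    simp only
    rw [integral_const_mul, integral_add hc1 ((hbWi.const_mul r).const_mul C₃),
      integral_const_mul, integral_const_mul, setIntegral_const, smul_eq_mul, mul_one]
    refine mul_le_mul_of_nonneg_left ?_ hK0.le
    have h6 := mul_le_mul_of_nonneg_left (mul_le_mul_of_nonneg_left hbW hr.le) hC₃.le
    linarith

end Pool.Agent.Q193.NG
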