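import Pool.Agent.Q193.NG.Cont
import Pool.Agent.Y96.NS.Scal

/-!
Scaling of quiet cylinders to viscosity one (helper193).
-/

set_option autoImplicit false

open MeasureTheory Set Metric Filter Topology
open scoped ContDiff ENNReal

namespace Pool.Agent.Q193.NG

open H459R3.NS W221.NS Pool.Agent.Y7 Pool.Agent.Y8 Pool.Agent.Y96.NS

lemma set_div {ν : ℝ} (hν : 0 < ν) (G : Set ℝ) (a b : ℝ) :
    {t : ℝ | t / ν ∈ G} ∩ Ioo (ν * a) (ν * b) = {t : ℝ | t / ν ∈ G ∩ Ioo a b} := by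
  ext t
  constructor
  · rintro ⟨h1, h2, h3⟩
    refine ⟨h1, ?_, ?_⟩
    · rw [lt_div_iff₀ hν]
      linarith
    · rw [div_lt_iff₀ hν]
      linarith
  · rintro ⟨h1, h2, h3⟩
    rw [lt_div_iff₀ hν] at h2
    rw [div_lt_iff₀ hν] at h3
    exact ⟨h1, by linarith, by linarith⟩

lemma lint_div {ν : ℝ} (hν : 0 < ν) {S : Set ℝ} (hS : IsOpen S) (g : ℝ → ℝ≥0∞) :
    ∫⁻ t in {t : ℝ | t / ν ∈ S}, g (t / ν) = ENNReal.ofReal ν * ∫⁻ t in S, g t := by
  have hme : MeasurableEmbedding (fun t : ℝ => ν * t) :=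
    (Homeomorph.mulLeft₀ ν hν.ne').measurableEmbedding
  have h1 := Real.smul_map_volume_mul_left hν.ne'
  rw [abs_of_pos hν] at h1
  calc ∫⁻ t in {t : ℝ | t / ν ∈ S}, g (t / ν)
      = ∫⁻ t in {t : ℝ | t / ν ∈ S}, g (t / ν)
          ∂(ENNReal.ofReal ν • Measure.map (fun t : ℝ => ν * t) volume) := by rw [h1]
    _ = ENNReal.ofReal ν * ∫⁻ t in {t : ℝ | t / ν ∈ S}, g (t / ν)
          ∂(Measure.map (fun t : ℝ => ν * t) volume) := by
        rw [Measure.restrict_smul, lintegral_smul_measure, smul_eq_mul]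
    _ = ENNReal.ofReal ν * ∫⁻ t in S, g t := by
        rw [hme.restrict_map, hme.lintegral_map]
        have e : (fun t : ℝ => ν * t) ⁻¹' {t : ℝ | t / ν ∈ S} = S := by
          ext t
          show ν * t / ν ∈ S ↔ t ∈ S
          rw [mul_div_cancel_left₀ _ hν.ne']
        rw [e]
        congr 1
        refine lintegral_congr fun t => ?_
        rw [mul_div_cancel_left₀ _ hν.ne']

/-- The scaling of quiet cylinders. -/
lemma quiet_scale {ν T E D : ℝ} {G : Set ℝ} {u : ℝ → V → V} {p : ℝ → V → ℝ} (hν : 0 < ν)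
    (h : Turb ν T E D G u p) {ε r : ℝ} {z : ℝ × V}
    (hq : Quiet ε 1 {t | t / ν ∈ G} (fun t x => ν⁻¹ • u (t / ν) x) r (ν * z.1, z.2)) :
    Quiet ε ν G u r z := by
  obtain ⟨-, hsing⟩ := Pool.Agent.Y8.B.p_wscal ν T E D G u p hν h
  obtain ⟨hreg, hvel, hvor⟩ := hq
  simp only [div_one] at hvor hvel
  have ea : ν * z.1 - r ^ 2 = ν * (z.1 - r ^ 2 / ν) := by field_simp
  have eb : ν * z.1 + r ^ 2 = ν * (z.1 + r ^ 2 / ν) := by field_simp
  have hS : ∀ a b : ℝ, IsOpen (G ∩ Ioo a b) := fun a b => h.openG.inter isOpen_Ioo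
  refine ⟨fun hs => hreg (hsing _ _ hs), ?_, ?_⟩
  · intro n
    have hvel := hvel n
    rw [ea, eb, set_div hν, lint_div hν (hS _ _) (fun t => (⨆ x ∈ ball z.2 r,
      ENNReal.ofReal ‖iteratedFDeriv ℝ n (fun x => ν⁻¹ • u t x) x‖) ^ 2)] at hvel
    have hle : ∀ t ∈ G ∩ Ioo (z.1 - r ^ 2 / ν) (z.1 + r ^ 2 / ν),
        (⨆ x ∈ ball z.2 r, ENNReal.ofReal ‖iteratedFDeriv ℝ n (u t) x‖) ^ 2
        ≤ ENNReal.ofReal ν ^ 2 * (⨆ x ∈ ball z.2 r,
          ENNReal.ofReal ‖iteratedFDeriv ℝ n (fun x => ν⁻¹ • u t x) x‖) ^ 2 := by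
      intro t ht
      have hut : ContDiff ℝ ∞ (u t) := sl_sm h.smooth_u ht.1
      rw [← mul_pow]
      refine pow_le_pow_left' ?_ 2
      refine iSup₂_le fun x hx => ?_
      have e : ‖iteratedFDeriv ℝ n (u t) x‖
          = ν * ‖iteratedFDeriv ℝ n (fun x => ν⁻¹ • u t x) x‖ := by
        rw [iteratedFDeriv_const_smul_apply' ((hut.of_le (by exact_mod_cast le_top)).contDiffAt),
          norm_smul, norm_inv, Real.norm_eq_abs, abs_of_pos hν, ← mul_assoc,
          mul_inv_cancel₀ hν.ne', one_mul]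
      rw [e, ENNReal.ofReal_mul hν.le]
      refine mul_le_mul_right ?_ _
      exact le_iSup₂_of_le (f := fun x (_ : x ∈ ball z.2 r) =>
        ENNReal.ofReal ‖iteratedFDeriv ℝ n (fun x => ν⁻¹ • u t x) x‖) x hx le_rfl
    refine (setLIntegral_mono' (hS _ _).measurableSet hle).trans ?_
    rw [lintegral_const_mul' _ _ (ENNReal.pow_ne_top ENNReal.ofReal_ne_top), sq, mul_assoc]
    refine (mul_le_mul_right hvel _).trans (le_of_eq ?_)
    rw [← ENNReal.ofReal_mul hν.le]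
    congr 1
    ring
  · intro t ht x hx n
    rw [ea, eb, set_div hν] at hvor
    have htν : ν * t / ν = t := mul_div_cancel_left₀ _ hν.ne'
    have h1 := hvor (ν * t) (by
      show ν * t / ν ∈ G ∩ Ioo (z.1 - r ^ 2 / ν) (z.1 + r ^ 2 / ν)
      rw [htν]
      exact ht) x hx n
    have hut : ContDiff ℝ ∞ (u t) := sl_sm h.smooth_u ht.1
    rw [htν, vort_smul ν⁻¹ hut, iteratedFDeriv_const_smul_apply' (((vort_smooth hut).of_le
      (by exact_mod_cast le_top)).contDiffAt), norm_smul, norm_inv, Real.norm_eq_abs,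
      abs_of_pos hν, inv_mul_le_iff₀ hν, mul_one] at h1
    refine h1.trans (le_of_eq ?_)
    ring

end Pool.Agent.Q193.NG
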