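import Pool.Agent.Q193.NG.Quiet

/-!
Slow points which are not quiet: all windows around them are bad (helper193).
-/

set_option autoImplicit false

open MeasureTheory Set Metric Filter Topology
open scoped ContDiff ENNReal

namespace Pool.Agent.Q193.NG

open H459R3.NS W221.NS Pool.Agent.Y7 Pool.Agent.Y8 Pool.Agent.Y8.WS Pool.Agent.TH305.LG
open Pool.Agent.Y7.Cov1 Pool.Agent.Y458.NS
open Pool.Agent.Q193.NS (rr_mono rr_le1 rr_add' sc_rr Ub)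

theorem slowq {ε₀ : ℝ} (hε₀ : 0 < ε₀) : ∃ (η κ : ℝ) (q : ℕ), 0 < η ∧ 0 < κ ∧
    ∀ (T E D : ℝ) (G : Set ℝ) (u : ℝ → V → V)
    (p : ℝ → V → ℝ), Turb 1 T E D G u p → ∀ (m : ℕ) (t₀ : ℝ) (x₀ : V), rr (m + 4) ^ 2 < t₀ →
      t₀ + rr (m + 4) ^ 2 < T → ¬ Quiet ε₀ 1 G u (rr (m + 9 + q)) (t₀, x₀) →
      ∀ (X X' Y Y' : ℝ → V) (B C B' C' : ℝ), FPath T (rr (m + 4)) B C G u p X X' →
        FPath T (rr (m + 8)) B' C' G u p Y Y' → Y t₀ = x₀ →
        (∀ t, |t - t₀| < rr (m + 4) ^ 2 → ‖X t - x₀‖ ≤ rr (m + 13)) →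
        (∀ t, |t - t₀| < rr (m + 4) ^ 2 → ‖Y t - x₀‖ ≤ rr (m + 13)) →
        IntegrableOn (fun t => ‖Y' t‖ ^ 2) (Ioo (t₀ - rr (m + 4) ^ 2) (t₀ + rr (m + 4) ^ 2)) →
        ∫ t in Ioo (t₀ - rr (m + 4) ^ 2) (t₀ + rr (m + 4) ^ 2), ‖Y' t‖ ^ 2 ≤ κ →
          Ioo (t₀ + rr (m + 8) ^ 2 / 128) (t₀ + rr (m + 8) ^ 2 / 64) ×ˢ ball x₀ (rr (m + 4) / 2)
            ⊆ Ub η G u m := by
  obtain ⟨C, hC, hsm⟩ := Pool.Agent.Y8.WS.wsmall
  obtain ⟨ε₁, hε₁, hcr⟩ := Pool.Agent.Y8.B.p_crit3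
  obtain ⟨ε₂, C₂, hε₂, hC₂, hcr4⟩ := crit4
  obtain ⟨ε₃, C₃, c₃, hε₃, hC₃, hc₃, hcr5⟩ := crit5
  -- the scale
  obtain ⟨q, hq⟩ : ∃ q : ℕ, rr q < min (1 / 32) (min (ε₀ / (16 * C₂)) (min (ε₀ / c₃) (ε₀ / 2))) := by
    have : 0 < c₃ := by linarith
    unfold rr
    exact exists_pow_lt_of_lt_one (by positivity) (by norm_num)
  obtain ⟨hq1, hq'⟩ := lt_min_iff.1 hq
  obtain ⟨hq2, hq''⟩ := lt_min_iff.1 hq'
  obtain ⟨hq3, hq4⟩ := lt_min_iff.1 hq''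
  obtain ⟨θ, hθ⟩ : ∃ θ, θ = rr (1 + q) := ⟨_, rfl⟩
  have hθ0 : 0 < θ := by rw [hθ]; exact rrp _
  have hθq : θ ≤ rr q := by rw [hθ]; exact rr_mono (by omega)
  have hθ1 : θ ≤ 1 / 32 := by linarith
  have hθ2 : 8 * C₂ ^ 2 * θ ^ 2 ≤ ε₀ ^ 2 / 4 := by
    have h1 : θ ≤ ε₀ / (16 * C₂) := by linarith
    rw [le_div_iff₀ (by positivity)] at h1
    have h2 : (θ * (16 * C₂)) ^ 2 ≤ ε₀ ^ 2 := pow_le_pow_left₀ (by positivity) h1 2
    have h3 : 0 ≤ C₂ ^ 2 * θ ^ 2 := by positivity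
    nlinarith
  have hθ4 : 2 * θ ^ 2 ≤ ε₀ ^ 2 / 2 := by
    have h1 : θ ≤ ε₀ / 2 := by linarith
    have h2 : θ ^ 2 ≤ (ε₀ / 2) ^ 2 := pow_le_pow_left₀ hθ0.le h1 2
    linarith
  have hθ3 : c₃ * θ ≤ ε₀ := by
    have hc0 : 0 < c₃ := by linarith
    have h1 : θ ≤ ε₀ / c₃ := by linarith
    rw [le_div_iff₀ hc0] at h1
    linarith
  obtain ⟨ε, hε⟩ : ∃ ε, ε = min (min ε₁ ε₂) (min (ε₀ ^ 2 / (16 * C₂ ^ 2))
    (min (ε₀ ^ 2 / (2 * C₃)) ε₃)) := ⟨_, rfl⟩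
  have hε0 : 0 < ε := by rw [hε]; positivity
  have hεa : ε ≤ ε₁ := by rw [hε]; exact (min_le_left _ _).trans (min_le_left _ _)
  have hεb : ε ≤ ε₂ := by rw [hε]; exact (min_le_left _ _).trans (min_le_right _ _)
  have hεc : 4 * C₂ ^ 2 * ε ≤ ε₀ ^ 2 / 4 := by
    have h1 : ε ≤ ε₀ ^ 2 / (16 * C₂ ^ 2) := by
      rw [hε]
      exact (min_le_right _ _).trans (min_le_left _ _)
    rw [le_div_iff₀ (by positivity)] at h1
    linarith
  have hεd : C₃ * ε ≤ ε₀ ^ 2 / 2 := by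
    have h1 : ε ≤ ε₀ ^ 2 / (2 * C₃) := by
      rw [hε]
      exact (min_le_right _ _).trans ((min_le_right _ _).trans (min_le_left _ _))
    rw [le_div_iff₀ (by positivity)] at h1
    linarith
  have hεe : ε ≤ ε₃ := by
    rw [hε]
    exact (min_le_right _ _).trans ((min_le_right _ _).trans (min_le_right _ _))
  obtain ⟨η, hη⟩ : ∃ η, η = min (1 / C) (ε / (32 * C)) := ⟨_, rfl⟩
  have hη0 : 0 < η := by rw [hη]; positivity
  have hη1 : C * η ≤ 1 := by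
    have : η ≤ 1 / C := by rw [hη]; exact min_le_left _ _
    calc C * η ≤ C * (1 / C) := by gcongr
      _ = 1 := by field_simp
  have hη2 : C * η ≤ ε / 32 := by
    have : η ≤ ε / (32 * C) := by rw [hη]; exact min_le_right _ _
    calc C * η ≤ C * (ε / (32 * C)) := by gcongr
      _ = ε / 32 := by field_simp
  refine ⟨η, ε₀ ^ 2 / 4, q, hη0, by positivity, ?_⟩
  intro T E D G u p h m t₀ x₀ ht1 ht2 hnq X X' Y Y' B C₁ B' C₂' hX hY hY0 hXs hYs hYi hYv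
  rintro ⟨s, y⟩ ⟨hs, hy⟩
  obtain ⟨r, hr⟩ : ∃ r, r = rr (m + 4) := ⟨_, rfl⟩
  have e8 : rr (m + 8) = r / 16 := by
    rw [hr, show m + 8 = (m + 4) + 4 by ring, rr_add']
    unfold rr
    norm_num
    ring
  have e13 : rr (m + 13) = r / 512 := by
    rw [hr, show m + 13 = (m + 4) + 9 by ring, rr_add']
    unfold rr
    norm_num
    ring
  have hr0 : 0 < r := by rw [hr]; exact rrp _
  have hr1 : r ≤ 1 := by rw [hr]; exact rr_le1 _
  have eq' : rr (m + 9 + q) = r / 16 * θ := by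
    rw [hθ, ← e8, ← rr_add']
    congr 1
    omega
  have hXs' := hXs
  have hYs' := hYs
  rw [e13] at hXs' hYs'
  replace hXs : ∀ t, |t - t₀| < rr (m + 4) ^ 2 → ‖X t - x₀‖ ≤ r / 256 :=
    fun t ht => (hXs' t ht).trans (by linarith)
  replace hYs : ∀ t, |t - t₀| < rr (m + 4) ^ 2 → ‖Y t - x₀‖ ≤ r / 256 :=
    fun t ht => (hYs' t ht).trans (by linarith)
  rw [e8] at hs
  rw [← hr] at ht1 ht2 hXs hYs hYs' hy hX hYi hYv
  rw [e8] at hY
  rw [eq'] at hnq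
  obtain ⟨hs1', hs2'⟩ := hs
  have hs1' : t₀ + (r / 16) ^ 2 / 128 < s := hs1'
  have hs2' : s < t₀ + (r / 16) ^ 2 / 64 := hs2'
  have hr2 : 0 < r ^ 2 := by positivity
  have hs1 : t₀ < s := by nlinarith
  have hs2 : s < t₀ + (r / 16) ^ 2 / 16 := by nlinarith
  have hs3 : s < t₀ + r ^ 2 := by nlinarith
  have hsT : s < T := by linarith
  have hsr : r ^ 2 < s := by linarith
  have hr16 : (r / 16) ^ 2 ≤ r ^ 2 := by nlinarith
  by_contra hcon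
  have hcon' : ∫⁻ τ in Ioo (s - hh (sc 1 0 ^ 2) m) s, FtO 1 G u (τ, y)
      ≤ ENNReal.ofReal (η / hh (sc 1 0 ^ 2) m) := not_lt.1 hcon
  rw [← sc_hh, sc_rr, ← hr] at hcon'
  have hint : ∫⁻ τ in Ioo (s - sc 1 m ^ 2) s, Fx 1 (u τ) y ≤ ENNReal.ofReal (η / sc 1 m ^ 2) := by
    rw [sc_rr, ← hr]
    refine le_trans (lintegral_mono_ae ?_) hcon'
    filter_upwards [aeT h (by linarith : 0 ≤ s - r ^ 2) hsT.le] with τ hτ
    rw [FtO_eq 1 u hτ]
  have hwin : ∀ τ ∈ Ioo (s - r ^ 2) s, |τ - t₀| < r ^ 2 := by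
    intro τ hτ
    rw [abs_lt]
    constructor
    · linarith [hτ.1]
    · linarith [hτ.2]
  have hy' : ‖y - x₀‖ < r / 2 := by
    have : y ∈ ball x₀ (r / 2) := hy
    rwa [mem_ball, dist_eq_norm] at this
  have h1 := hsm T E D G u p h 1 one_pos m s (by rw [sc_rr, ← hr]; exact hsr) hsT (fun _ => y) X X'
    B C₁ (by rw [sc_rr, ← hr]; exact hX) (by
      intro τ hτ
      rw [sc_rr, ← hr] at hτ ⊢
      have h2 := hXs τ (hwin τ hτ)
      have h3 : ‖y - X τ‖ ≤ ‖y - x₀‖ + ‖X τ - x₀‖ := by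
        rw [norm_sub_rev (X τ)]
        exact norm_sub_le_norm_sub_add_norm_sub y x₀ (X τ)
      linarith) η hη0 hη1 hint
  rw [sc_rr, ← hr] at h1
  have hXG : ContinuousOn X G := fun τ hτ => (hX.hd τ (h.subG hτ)).continuousAt.continuousWithinAt
  have hYG : ContinuousOn Y G := fun τ hτ => (hY.hd τ (h.subG hτ)).continuousAt.continuousWithinAt
  have hsub : Ioo (s - (r / 16) ^ 2) s ⊆ Ioo (s - 9 / 16 * r ^ 2) s := by
    apply Ioo_subset_Ioo_left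
    nlinarith
  have hIT : Ioo (s - 9 / 16 * r ^ 2) s ⊆ Ioo 0 T := by
    intro τ hτ
    constructor
    · nlinarith [hτ.1]
    · linarith [hτ.2]
  have i1 : IntegrableOn (fun τ => B2 (X τ) (r * (3 / 4)) (u τ)) (Ioo (s - 9 / 16 * r ^ 2) s) :=
    (B2_mov_int h hXG _).mono_set_ae (sub_ae h hIT)
  have i2 : IntegrableOn (fun τ => B2 (Y τ) (8 * (r / 16)) (u τ)) (Ioo (s - (r / 16) ^ 2) s) :=
    (B2_mov_int h hYG _).mono_set_ae (sub_ae h (hsub.trans hIT))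
  have h3 : ∫ τ in Ioo (s - (r / 16) ^ 2) s, B2 (Y τ) (8 * (r / 16)) (u τ)
      ≤ ∫ τ in Ioo (s - (r / 16) ^ 2) s, B2 (X τ) (r * (3 / 4)) (u τ) := by
    refine integral_mono_ae i2 (i1.mono_set hsub) ?_
    have hpos : 0 ≤ s - (r / 16) ^ 2 := by linarith
    filter_upwards [aeT h hpos hsT.le, ae_restrict_mem measurableSet_Ioo] with τ hτ hτI
    refine Pool.Agent.Q193.NS.B2_mono (h.spv hτ).1 ?_
    have hw : |τ - t₀| < r ^ 2 := hwin τ ⟨by linarith [hτI.1], hτI.2⟩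
    have a1 := hXs τ hw
    have a2 := hYs τ hw
    apply ball_subset_ball'
    rw [dist_eq_norm]
    have a3 : ‖Y τ - X τ‖ ≤ ‖Y τ - x₀‖ + ‖X τ - x₀‖ := by
      rw [norm_sub_rev (X τ)]
      exact norm_sub_le_norm_sub_add_norm_sub (Y τ) x₀ (X τ)
    linarith
  have h4 : ∫ τ in Ioo (s - (r / 16) ^ 2) s, B2 (X τ) (r * (3 / 4)) (u τ)
      ≤ ∫ τ in Ioo (s - 9 / 16 * r ^ 2) s, B2 (X τ) (r * (3 / 4)) (u τ) :=
    setIntegral_mono_set i1 (Eventually.of_forall fun τ => B2_nn' _ _ _) hsub.eventuallyLE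
  have h5 : C * η * r ≤ ε / 32 * r := mul_le_mul_of_nonneg_right hη2 hr0.le
  have h6 : 0 < ε * r := by positivity
  have h7 : ∫ τ in Ioo (s - (r / 16) ^ 2) s, B2 (Y τ) (8 * (r / 16)) (u τ) ≤ ε / 32 * r := by
    linarith
  apply hnq
  have hreg : ¬ SingPt G u t₀ x₀ := by
    intro hsing
    have h2 := hcr T E D G u p h (r / 16) s (by positivity) (by linarith) (by linarith) hsT Y Y' B'
      C₂' hY t₀ ⟨by linarith, hs1⟩ x₀ (by
        rw [hY0]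
        exact mem_ball_self (by positivity)) hsing
    have h8 : ε * (r / 16) ≤ ε₁ * (r / 16) := mul_le_mul_of_nonneg_right hεa (by positivity)
    linarith
  have h9 : ε * (r / 16) ≤ ε₂ * (r / 16) := mul_le_mul_of_nonneg_right hεb (by positivity)
  have h10 : ε * (r / 16) ≤ ε₃ * (r / 16) := mul_le_mul_of_nonneg_right hεe (by positivity)
  have hp := hcr4 T E D G u p h (r / 16) s (by positivity) (by linarith) hsT Y Y' B' C₂' hY
    (by linarith)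
  have hp5 := hcr5 T E D G u p h (r / 16) s (by positivity) (by linarith) hsT Y Y' B' C₂' hY
    (by linarith)
  obtain ⟨R, hR⟩ : ∃ R, R = r / 16 := ⟨_, rfl⟩
  have hR0 : 0 < R := by rw [hR]; positivity
  have hRr : R ^ 2 ≤ r ^ 2 := by
    rw [hR]
    exact hr16
  rw [← hR] at hp hp5 hY hs1' hs2' h7 h9 h10 hnq hr16 ⊢
  have hJ : Ioo (t₀ - R ^ 2) (t₀ + R ^ 2) ⊆ Ioo (t₀ - r ^ 2) (t₀ + r ^ 2) :=
    Ioo_subset_Ioo (by linarith) (by linarith)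
  have hq := quiet_of h (r := R) (ρ := R * θ) (d := R / 32) (t₀ := t₀) (x₀ := x₀)
    (κ := ε₀ ^ 2 / 4) hε0 hC₂
    hC₃ hc₃ hR0 (by positivity) (by
      have := mul_le_mul_of_nonneg_left hθ1 hR0.le
      linarith) (by positivity) le_rfl (by linarith) hsT hY hs1' hs2' (by linarith) (by linarith)
    (fun t ht => (hYs' t (by linarith)).trans (by
      rw [hR]
      linarith)) (hYi.mono_set hJ)
    ((setIntegral_mono_set hYi (Eventually.of_forall fun τ => sq_nonneg _)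
      hJ.eventuallyLE).trans hYv) (by
        have : 0 < ε * R := by positivity
        have e3 : ε / 32 * r = ε * R / 2 := by
          rw [hR]
          ring
        linarith) hp hp5
  obtain ⟨hq1, hq2, hq3⟩ := hq
  have hRθ : 0 < R * θ := by positivity
  have hc0 : 0 < c₃ := by linarith
  refine ⟨hreg, ?_, ?_⟩
  · simp only [div_one]
    intro n
    rcases n with _ | n
    · simp only [norm_iteratedFDeriv_zero]
      refine hq1.trans (ENNReal.ofReal_le_ofReal ?_)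
      have e1 : 2 * (ε₀ ^ 2 / 4) + 4 * (C₂ / R) ^ 2 * (2 * (R * θ) ^ 2 + R * (ε * R))
          = ε₀ ^ 2 / 2 + (8 * C₂ ^ 2 * θ ^ 2 + 4 * C₂ ^ 2 * ε) := by
        field_simp
        ring
      have e2 : (ε₀ ^ (0 + 1) * ((0 : ℕ).factorial : ℝ)) ^ 2 * 1 / (R * θ) ^ (2 * 0) = ε₀ ^ 2 := by
        simp
      rw [e1, e2]
      linarith
    · refine (hq3 n).trans (ENNReal.ofReal_le_ofReal ?_)
      have a1 : (c₃ * θ) ^ (n + 1) ≤ ε₀ ^ (n + 1) := pow_le_pow_left₀ (by positivity) hθ3 _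
      have a2 : 2 * θ ^ 2 + C₃ * ε ≤ ε₀ ^ 2 := by linarith
      have a3 : (n.factorial : ℝ) ≤ ((n + 1).factorial : ℝ) := by
        exact_mod_cast Nat.factorial_le (Nat.le_succ n)
      have e1 : (c₃ ^ (n + 1) * (n.factorial : ℝ)) ^ 2 / R ^ (2 * n + 4) *
          (2 * (R * θ) ^ 2 + C₃ * (R * (ε * R)))
          = ((c₃ * θ) ^ (n + 1) * (n.factorial : ℝ)) ^ 2 * (2 * θ ^ 2 + C₃ * ε)
            / (R * θ) ^ (2 * (n + 1)) := by
        have e2 : (R : ℝ) ^ (2 * n + 4) = R ^ (2 * n + 2) * R ^ 2 := by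
          rw [← pow_add]
        have e3 : (c₃ * θ) ^ (n + 1) = c₃ ^ (n + 1) * θ ^ (n + 1) := mul_pow _ _ _
        have e4 : (R * θ) ^ (2 * (n + 1)) = R ^ (2 * n + 2) * (θ ^ (n + 1)) ^ 2 := by
          rw [mul_pow, ← pow_mul]
          congr 2
          ring
        rw [e2, e3, e4]
        field_simp
      rw [e1, mul_one]
      refine div_le_div_of_nonneg_right ?_ (by positivity)
      calc ((c₃ * θ) ^ (n + 1) * (n.factorial : ℝ)) ^ 2 * (2 * θ ^ 2 + C₃ * ε)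
          ≤ (ε₀ ^ (n + 1) * ((n + 1).factorial : ℝ)) ^ 2 * ε₀ ^ 2 := by gcongr
        _ = (ε₀ ^ (n + 1 + 1) * ((n + 1).factorial : ℝ)) ^ 2 := by ring
  · simp only [div_one]
    intro t ht x hx n
    refine (hq2 t ht x hx n).trans ?_
    have a1 : (c₃ * θ) ^ (n + 1) ≤ ε₀ ^ (n + 1) := pow_le_pow_left₀ (by positivity) hθ3 _
    rw [mul_one, div_le_div_iff₀ (by positivity) (by positivity)]
    have e1 : c₃ ^ (n + 1) * (n.factorial : ℝ) * (R * θ) ^ (n + 2)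
        = (c₃ * θ) ^ (n + 1) * (n.factorial : ℝ) * R ^ (n + 2) * θ := by ring
    rw [e1]
    calc (c₃ * θ) ^ (n + 1) * (n.factorial : ℝ) * R ^ (n + 2) * θ
        ≤ ε₀ ^ (n + 1) * (n.factorial : ℝ) * R ^ (n + 2) * 1 := by
          gcongr
          linarith
      _ = _ := mul_one _

end Pool.Agent.Q193.NG
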